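import Mathlib
import Pool.Agent.Helper78.QS.Dim

/-!
# An abstract bound for the dimension of limsup sets
-/

set_option autoImplicit false

namespace Pool.Agent.Helper78.MZ.Abs

open MeasureTheory Filter Topology
open scoped ENNReal NNReal
open Pool.Agent.Helper78.QS.Cover (Cv)
open Pool.Agent.Helper78.QS.Dim (num)

variable {X : Type} [MetricSpace X] [MeasurableSpace X] [BorelSpace X]

theorem meas_zero (S : Set X) (w' n' c : ℕ) (A : ℕ → ℕ → ℕ → Set X)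
    (hcov : ∀ q H e : ℕ, 2 ≤ H → Cv (A q H e) (H ^ (c + w' * (q * e) + n' * e))
      (fun T => ∀ x ∈ T, ∀ y ∈ T, dist x y * (H : ℝ) ^ (q * e) ≤ (H : ℝ) ^ (c + e)))
    (hS : ∀ q C : ℕ, ∀ x ∈ S, ∃ H : ℕ, 2 ≤ H ∧ ∃ e : ℕ, C ≤ e ∧ x ∈ A q H e)
    (s : ℝ) (hs : (w' : ℝ) < s) :
    (Measure.hausdorffMeasure s : Measure X) S = 0 := by
  classical
  have hs0 : 0 ≤ s := le_trans (Nat.cast_nonneg _) hs.le
  obtain ⟨q, hq⟩ : ∃ q : ℕ, (n' : ℝ) + s + 1 ≤ q * (s - w') := by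
    obtain ⟨q, hq⟩ := exists_nat_ge (((n' : ℝ) + s + 1) / (s - w'))
    refine ⟨q, ?_⟩
    rwa [div_le_iff₀ (by linarith)] at hq
  obtain ⟨q, hq, hq2⟩ : ∃ q : ℕ, (n' : ℝ) + s + 1 ≤ q * (s - w') ∧ 2 ≤ q := by
    refine ⟨max q 2, ?_, le_max_right _ _⟩
    refine hq.trans (mul_le_mul_of_nonneg_right ?_ (by linarith))
    exact_mod_cast le_max_left _ _
  obtain ⟨c₆, hc₆⟩ := exists_nat_ge ((c : ℝ) + c * s)
  let C0 : ℕ → ℕ := fun t => c₆ + 2 + t + c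
  choose κ hκ T hT1 hT2 hT3 using fun (t : ℕ) (p : ℕ × ℕ) =>
    hcov q (p.1 + 2) (C0 t + p.2) (by omega)
  have hcount : ∀ t, Countable (Σ p : ℕ × ℕ, κ t p) := fun t => inferInstance
  have hdiam : ∀ (t : ℕ) (p : ℕ × ℕ) (k : κ t p), Metric.ediam (T t p k) ≤
      ENNReal.ofReal (((p.1 + 2 : ℕ) : ℝ) ^ (c + (C0 t + p.2)) /
        ((p.1 + 2 : ℕ) : ℝ) ^ (q * (C0 t + p.2))) := by
    intro t p k
    apply Metric.ediam_le
    intro x hx y hy
    have h1 := hT3 t p k x hx y hy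
    have h2 : (0 : ℝ) < ((p.1 + 2 : ℕ) : ℝ) ^ (q * (C0 t + p.2)) := by positivity
    rw [edist_dist]
    apply ENNReal.ofReal_le_ofReal
    rwa [le_div_iff₀ h2]
  have hmain := Measure.hausdorffMeasure_le_liminf_tsum (β := ℕ) (ι := fun t => Σ p : ℕ × ℕ, κ t p)
    s S (l := atTop) (fun t => ENNReal.ofReal ((1 / 2) ^ t)) (by
      have h1 : Tendsto (fun t : ℕ => ((1 / 2 : ℝ)) ^ t) atTop (𝓝 0) :=
        tendsto_pow_atTop_nhds_zero_of_lt_one (by norm_num) (by norm_num)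
      have := ENNReal.tendsto_ofReal h1
      rwa [ENNReal.ofReal_zero] at this)
    (fun t p => T t p.1 p.2) (Eventually.of_forall (fun t p => by
      refine (hdiam t p.1 p.2).trans (ENNReal.ofReal_le_ofReal ?_)
      set Hr : ℝ := ((p.1.1 + 2 : ℕ) : ℝ) with hHr
      have hH2 : (2 : ℝ) ≤ Hr := by
        rw [hHr]
        exact_mod_cast (by omega : 2 ≤ p.1.1 + 2)
      have hH1 : (1 : ℝ) ≤ Hr := by linarith
      rw [div_le_iff₀ (by positivity)]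
      have h1 : Hr ^ (c + (C0 t + p.1.2)) * Hr ^ t ≤ Hr ^ (q * (C0 t + p.1.2)) := by
        rw [← pow_add]
        apply pow_le_pow_right₀ hH1
        have h2 : 2 * (C0 t + p.1.2) ≤ q * (C0 t + p.1.2) := Nat.mul_le_mul_right _ hq2
        have h3 : c + t ≤ C0 t := by simp only [C0]; omega
        omega
      have h4 : (1 : ℝ) ≤ (1 / 2) ^ t * Hr ^ t := by
        rw [← mul_pow]
        apply one_le_pow₀
        linarith
      calc Hr ^ (c + (C0 t + p.1.2)) ≤ Hr ^ (c + (C0 t + p.1.2)) * ((1 / 2) ^ t * Hr ^ t) :=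
            le_mul_of_one_le_right (by positivity) h4
        _ = (1 / 2) ^ t * (Hr ^ (c + (C0 t + p.1.2)) * Hr ^ t) := by ring
        _ ≤ _ := mul_le_mul_of_nonneg_left h1 (by positivity)))
    (Eventually.of_forall (fun t => by
      intro x hx
      obtain ⟨H, hH, e, he, hS'⟩ := hS q (C0 t) x hx
      obtain ⟨i, rfl⟩ := Nat.exists_eq_add_of_le' hH
      obtain ⟨j, rfl⟩ := Nat.exists_eq_add_of_le he
      have h1 := hT2 t (i, j) hS'
      obtain ⟨k, hk⟩ := Set.mem_iUnion.1 h1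
      exact Set.mem_iUnion.2 ⟨⟨(i, j), k⟩, hk⟩))
  let g : ℕ × ℕ → ℝ := fun p => (1 / ((p.1 + 2 : ℕ) : ℝ)) ^ 2 * (1 / 2) ^ p.2
  have hg : Summable g := by
    have h1 : Summable (fun i : ℕ => (1 / ((i + 2 : ℕ) : ℝ)) ^ 2) := by
      have h2 : Summable (fun i : ℕ => 1 / ((i : ℕ) : ℝ) ^ 2) :=
        Real.summable_one_div_nat_pow.2 (by norm_num)
      have h3 := (summable_nat_add_iff 2).2 h2
      refine h3.congr (fun i => ?_)
      rw [div_pow, one_pow]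
    exact h1.mul_of_nonneg (summable_geometric_two) (fun i => by positivity) (fun i => by positivity)
  have hbound : ∀ t : ℕ, ∑' p : (Σ p : ℕ × ℕ, κ t p), Metric.ediam (T t p.1 p.2) ^ s ≤
      (∑' p, ENNReal.ofReal (g p)) * ENNReal.ofReal ((1 / 2) ^ t) := by
    intro t
    rw [ENNReal.tsum_sigma', ← ENNReal.tsum_mul_right]
    refine ENNReal.tsum_le_tsum (fun p => ?_)
    rw [tsum_fintype]
    set Hn : ℕ := p.1 + 2 with hHn
    have hH2 : 2 ≤ Hn := by omega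
    set e : ℕ := C0 t + p.2 with he
    have h1 : ∀ k : κ t p, Metric.ediam (T t p k) ^ s ≤
        ENNReal.ofReal (((Hn : ℝ) ^ (c + e) / (Hn : ℝ) ^ (q * e)) ^ s) := by
      intro k
      rw [← ENNReal.ofReal_rpow_of_nonneg (by positivity) hs0]
      exact ENNReal.rpow_le_rpow (hdiam t p k) hs0
    calc ∑ k : κ t p, Metric.ediam (T t p k) ^ s
        ≤ ∑ _k : κ t p, ENNReal.ofReal (((Hn : ℝ) ^ (c + e) / (Hn : ℝ) ^ (q * e)) ^ s) :=
          Finset.sum_le_sum (fun k _ => h1 k)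
      _ = (Fintype.card (κ t p) : ℝ≥0∞) *
          ENNReal.ofReal (((Hn : ℝ) ^ (c + e) / (Hn : ℝ) ^ (q * e)) ^ s) := by
          rw [Finset.sum_const, Finset.card_univ, nsmul_eq_mul]
      _ ≤ ((Hn ^ (c + w' * (q * e) + n' * e) : ℕ) : ℝ≥0∞) *
          ENNReal.ofReal (((Hn : ℝ) ^ (c + e) / (Hn : ℝ) ^ (q * e)) ^ s) := by
          gcongr
          exact hT1 t p
      _ = ENNReal.ofReal (((Hn ^ (c + w' * (q * e) + n' * e) : ℕ) : ℝ) *
          ((Hn : ℝ) ^ (c + e) / (Hn : ℝ) ^ (q * e)) ^ s) := by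
          rw [ENNReal.ofReal_mul (Nat.cast_nonneg _), ENNReal.ofReal_natCast]
      _ ≤ ENNReal.ofReal (g p * (1 / 2) ^ t) := by
          apply ENNReal.ofReal_le_ofReal
          exact num hH2 hq hc₆ (by simp only [he, C0]; omega)
      _ = _ := ENNReal.ofReal_mul (by simp only [g]; positivity)
  have hlim : Tendsto (fun t : ℕ => (∑' p, ENNReal.ofReal (g p)) * ENNReal.ofReal ((1 / 2) ^ t))
      atTop (𝓝 0) := by
    have h1 : Tendsto (fun t : ℕ => ((1 / 2 : ℝ)) ^ t) atTop (𝓝 0) :=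
      tendsto_pow_atTop_nhds_zero_of_lt_one (by norm_num) (by norm_num)
    have h2 := ENNReal.tendsto_ofReal h1
    rw [ENNReal.ofReal_zero] at h2
    have h3 := ENNReal.Tendsto.const_mul (a := ∑' p, ENNReal.ofReal (g p)) h2
      (Or.inr hg.tsum_ofReal_ne_top)
    rwa [mul_zero] at h3
  have h4 := hmain.trans (liminf_le_liminf (Eventually.of_forall hbound))
  rw [hlim.liminf_eq] at h4
  exact nonpos_iff_eq_zero.1 h4

theorem dim_le (S : Set X) (w' n' c : ℕ) (A : ℕ → ℕ → ℕ → Set X)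
    (hcov : ∀ q H e : ℕ, 2 ≤ H → Cv (A q H e) (H ^ (c + w' * (q * e) + n' * e))
      (fun T => ∀ x ∈ T, ∀ y ∈ T, dist x y * (H : ℝ) ^ (q * e) ≤ (H : ℝ) ^ (c + e)))
    (hS : ∀ q C : ℕ, ∀ x ∈ S, ∃ H : ℕ, 2 ≤ H ∧ ∃ e : ℕ, C ≤ e ∧ x ∈ A q H e) :
    dimH S ≤ ((w' : ℕ) : ℝ≥0∞) := by
  apply dimH_le
  intro d' hd'
  by_contra hcon
  rw [not_le] at hcon
  have h1 : ((w' : ℕ) : ℝ) < (d' : ℝ) := by
    have h2 : (((w' : ℕ) : ℝ≥0) : ℝ≥0∞) < (d' : ℝ≥0∞) := by exact_mod_cast hcon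
    exact_mod_cast ENNReal.coe_lt_coe.1 h2
  rw [meas_zero S w' n' c A hcov hS d' h1] at hd'
  exact ENNReal.zero_ne_top hd'

end Pool.Agent.Helper78.MZ.Abs
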