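import Mathlib
import Pool.Agent.Helper78.EC.Generic

/-!
# Analytic charts for the exponential algebraic closure of a generic point
-/

set_option autoImplicit false

namespace Pool.Agent.Helper78.MZ.Chart

open MvPolynomial Filter Topology Module Set
open Pool.Agent.Helper78.SC Pool.Agent.Helper78.SC.Ax Pool.Agent.Helper78.SC.Cov
open Pool.Agent.Helper78.EC.Flow Pool.Agent.Helper78.EC.Move Pool.Agent.Helper78.EC.Closure
open Pool.Agent.Helper78.EC.Generic
open Pool.Agent.W252

variable {K : IntermediateField ℚ ℂ} {m n : ℕ}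

/-- gluing of coordinates -/
noncomputable def L (m n : ℕ) : ((Fin m → ℂ) × (Fin n → ℂ)) →L[ℂ] (Fin (m + n) → ℂ) :=
  LinearMap.toContinuousLinearMap
    { toFun := fun v => Fin.append v.1 v.2
      map_add' := fun v w => by
        funext i
        refine Fin.addCases (fun j => ?_) (fun j => ?_) i
        · simp [Fin.append_left]
        · simp [Fin.append_right]
      map_smul' := fun c v => by
        funext i
        refine Fin.addCases (fun j => ?_) (fun j => ?_) i
        · simp [Fin.append_left]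
        · simp [Fin.append_right] }

theorem L_apply (v : (Fin m → ℂ) × (Fin n → ℂ)) : L m n v = Fin.append v.1 v.2 := rfl

/-- the Jacobian matrix -/
noncomputable def Jac (P : Fin n → MvPolynomial (Fin (m + n) ⊕ Fin (m + n)) K)
    (Z : Fin (m + n) → ℂ) : Matrix (Fin n) (Fin n) ℂ :=
  Matrix.of fun i j => fd K Z (P i) (Pi.single (Fin.natAdd m j) 1)

theorem L_eq (w : Fin n → ℂ) :
    L m n (0, w) = ∑ j, w j • (Pi.single (Fin.natAdd m j) (1 : ℂ) : Fin (m + n) → ℂ) := by
  funext k
  rw [Finset.sum_apply]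
  refine Fin.addCases (fun j => ?_) (fun j => ?_) k
  · rw [L_apply, Fin.append_left]
    symm
    refine Finset.sum_eq_zero (fun l _ => ?_)
    rw [Pi.smul_apply, Pi.single_eq_of_ne, smul_zero]
    intro h
    have := congrArg Fin.val h
    simp at this
    omega
  · rw [L_apply, Fin.append_right, Finset.sum_eq_single j]
    · simp
    · intro l _ hl
      rw [Pi.smul_apply, Pi.single_eq_of_ne, smul_zero]
      intro h
      apply hl
      have := congrArg Fin.val h
      simp at this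
      exact Fin.ext this.symm
    · intro h
      exact absurd (Finset.mem_univ _) h

theorem fd_L (P : MvPolynomial (Fin (m + n) ⊕ Fin (m + n)) K) (Z : Fin (m + n) → ℂ)
    (w : Fin n → ℂ) : fd K Z P (L m n (0, w)) =
      ∑ j, fd K Z P (Pi.single (Fin.natAdd m j) 1) * w j := by
  rw [L_eq, map_sum]
  refine Finset.sum_congr rfl (fun j _ => ?_)
  rw [map_smul, smul_eq_mul, mul_comm]

theorem Jac_mulVec (P : Fin n → MvPolynomial (Fin (m + n) ⊕ Fin (m + n)) K)
    (Z : Fin (m + n) → ℂ) (w : Fin n → ℂ) :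
    (Jac P Z).mulVec w = fun i => fd K Z (P i) (L m n (0, w)) := by
  funext i
  rw [fd_L]
  rfl

theorem continuous_fd (P : MvPolynomial (Fin n ⊕ Fin n) K) (v : Fin n → ℂ) :
    Continuous (fun Z : Fin n → ℂ => fd K Z P v) := by
  simp only [fd_apply]
  unfold Ext.dv
  refine continuous_finsetSum _ (fun s _ => ?_)
  refine Continuous.mul ?_ (continuous_aeval _)
  rcases s with j | j
  · exact continuous_const
  · exact (Complex.continuous_exp.comp (continuous_apply j)).mul continuous_const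

theorem continuous_det (P : Fin n → MvPolynomial (Fin (m + n) ⊕ Fin (m + n)) K) :
    Continuous (fun Z : Fin (m + n) → ℂ => (Jac P Z).det) := by
  apply Continuous.matrix_det
  exact continuous_matrix (fun i j => continuous_fd _ _)

theorem analyticAt_aeval (P : MvPolynomial (Fin n ⊕ Fin n) K) (Z : Fin n → ℂ) :
    AnalyticAt ℂ (fun z : Fin n → ℂ => aeval (pt z) P) Z := by
  induction P using MvPolynomial.induction_on with
  | C a =>
    simp only [aeval_C]
    exact analyticAt_const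
  | add p q hp hq =>
    simp only [map_add]
    exact hp.add hq
  | mul_X p j hp =>
    simp only [map_mul, aeval_X]
    refine hp.mul ?_
    rcases j with j | j
    · exact (ContinuousLinearMap.proj (R := ℂ) (φ := fun _ : Fin n => ℂ) j).analyticAt Z
    · exact ((ContinuousLinearMap.proj (R := ℂ) (φ := fun _ : Fin n => ℂ) j).analyticAt Z).cexp

/-- the system -/
noncomputable def Φ (P : Fin n → MvPolynomial (Fin (m + n) ⊕ Fin (m + n)) K)
    (v : (Fin m → ℂ) × (Fin n → ℂ)) : Fin n → ℂ := fun i => aeval (pt (L m n v)) (P i)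

theorem Φ_an (P : Fin n → MvPolynomial (Fin (m + n) ⊕ Fin (m + n)) K)
    (v : (Fin m → ℂ) × (Fin n → ℂ)) : AnalyticAt ℂ (Φ P) v := by
  rw [analyticAt_pi_iff]
  intro i
  exact (analyticAt_aeval (P i) (L m n v)).comp ((L m n).analyticAt v)

theorem Φ_fd (P : Fin n → MvPolynomial (Fin (m + n) ⊕ Fin (m + n)) K)
    (v : (Fin m → ℂ) × (Fin n → ℂ)) : HasFDerivAt (Φ P)
      (ContinuousLinearMap.pi fun i => (fd K (L m n v) (P i)).comp (L m n)) v := by
  rw [hasFDerivAt_pi]
  intro i
  exact (hasDeriv K (L m n v) (P i)).hasFDerivAt.comp v (L m n).hasFDerivAt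

theorem inv (P : Fin n → MvPolynomial (Fin (m + n) ⊕ Fin (m + n)) K)
    (v : (Fin m → ℂ) × (Fin n → ℂ)) (h1 : (Jac P (L m n v)).det ≠ 0) :
    (fderiv ℂ (Φ P) v ∘L .inr ℂ (Fin m → ℂ) (Fin n → ℂ)).IsInvertible := by
  set A := fderiv ℂ (Φ P) v ∘L .inr ℂ (Fin m → ℂ) (Fin n → ℂ) with hA
  have h2 : ∀ w, A w = (Jac P (L m n v)).mulVec w := by
    intro w
    rw [hA, (Φ_fd P v).fderiv, Jac_mulVec]
    rfl
  have h3 : Function.Injective (A : (Fin n → ℂ) →ₗ[ℂ] (Fin n → ℂ)) := by
    rw [← LinearMap.ker_eq_bot, LinearMap.ker_eq_bot']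
    intro w hw
    have h4 : (Jac P (L m n v)).mulVec w = 0 := by
      rw [← h2]
      exact hw
    exact Matrix.eq_zero_of_mulVec_eq_zero h1 h4
  refine ⟨(LinearEquiv.ofInjectiveEndo _ h3).toContinuousLinearEquiv, ?_⟩
  ext w
  rfl

/-- **The implicit function.** -/
theorem chart (P : Fin n → MvPolynomial (Fin (m + n) ⊕ Fin (m + n)) K)
    (u : (Fin m → ℂ) × (Fin n → ℂ)) (h0 : Φ P u = 0) (h1 : (Jac P (L m n u)).det ≠ 0) :
    ∃ (r : ℝ) (F : (Fin m → ℂ) → (Fin n → ℂ)), 0 < r ∧ AnalyticOnNhd ℂ F (Metric.ball u.1 r) ∧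
      (∀ t ∈ Metric.ball u.1 r, Φ P (t, F t) = 0 ∧ (Jac P (L m n (t, F t))).det ≠ 0) ∧
      ∀ᶠ v in 𝓝 u, Φ P v = 0 → v.1 ∈ Metric.ball u.1 r ∧ F v.1 = v.2 := by
  have cdf : ContDiffAt ℂ (⊤ : WithTop ℕ∞) (Φ P) u := (Φ_an P u).contDiffAt
  have pn : (⊤ : WithTop ℕ∞) ≠ 0 := by simp
  have if₂ := inv P u h1
  set F := cdf.implicitFunction pn if₂ with hF
  have e1 : F u.1 = u.2 := cdf.implicitFunction_apply_self pn if₂
  have e2 : ∀ᶠ x in 𝓝 u.1, Φ P (x, F x) = 0 := by
    have := cdf.eventually_apply_implicitFunction pn if₂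
    rw [h0] at this
    exact this
  have e3 : ∀ᶠ v in 𝓝 u, Φ P v = 0 ↔ F v.1 = v.2 := by
    have := cdf.eventually_apply_eq_iff_implicitFunction pn if₂
    rw [h0] at this
    exact this
  have e4 : AnalyticAt ℂ F u.1 := (cdf.contDiffAt_implicitFunction pn if₂).analyticAt
  have e5 : ∀ᶠ x in 𝓝 u.1, (Jac P (L m n (x, F x))).det ≠ 0 := by
    have hc : ContinuousAt (fun x => (Jac P (L m n (x, F x))).det) u.1 := by
      refine ContinuousAt.comp (g := fun Z => (Jac P Z).det) (f := fun x => L m n (x, F x))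
        (continuous_det P).continuousAt ?_
      refine ContinuousAt.comp (g := L m n) (f := fun x => (x, F x)) (L m n).continuous.continuousAt ?_
      exact continuousAt_id.prodMk e4.continuousAt
    apply hc.eventually_ne
    rw [e1]
    exact h1
  obtain ⟨r, hr, hball⟩ := Metric.eventually_nhds_iff_ball.1
    (e2.and (e4.eventually_analyticAt.and e5))
  refine ⟨r, F, hr, fun t ht => (hball t ht).2.1, fun t ht => ⟨(hball t ht).1, (hball t ht).2.2⟩, ?_⟩
  have e6 : ∀ᶠ v : (Fin m → ℂ) × (Fin n → ℂ) in 𝓝 u, v.1 ∈ Metric.ball u.1 r :=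
    continuous_fst.continuousAt.eventually (Metric.ball_mem_nhds _ hr)
  filter_upwards [e3, e6] with v h3 h6 h7
  exact ⟨h6, h3.1 h7⟩

end Pool.Agent.Helper78.MZ.Chart
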