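import Mathlib
import Pool.Agent.Helper78.MZ.Chart

/-!
# Countably many charts for the exponential algebraic closure of a generic point
-/

set_option autoImplicit false

namespace Pool.Agent.Helper78.MZ.Atlas

open MvPolynomial Filter Topology Module Set
open Pool.Agent.Helper78.SC Pool.Agent.Helper78.SC.Ax Pool.Agent.Helper78.SC.Cov
open Pool.Agent.Helper78.EC.Flow Pool.Agent.Helper78.EC.Move Pool.Agent.Helper78.EC.Closure
open Pool.Agent.Helper78.EC.Generic Pool.Agent.Helper78.MZ.Chart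
open Pool.Agent.W252

variable {K : IntermediateField ℚ ℂ} {m n : ℕ}

/-- a regular subsystem -/
theorem extract (Z : Fin (m + n) → ℂ) (S : Finset (MvPolynomial (Fin (m + n) ⊕ Fin (m + n)) K))
    (hS : ∀ w : Fin n → ℂ, (∀ P ∈ S, fd K Z P (L m n (0, w)) = 0) → w = 0) :
    ∃ P : Fin n → MvPolynomial (Fin (m + n) ⊕ Fin (m + n)) K,
      (∀ i, P i ∈ S) ∧ (Jac P Z).det ≠ 0 := by
  classical
  let r : S → (Fin n → ℂ) := fun P j => fd K Z P.1 (Pi.single (Fin.natAdd m j) 1)
  have hr : ∀ (P : S) (w : Fin n → ℂ), ∑ j, r P j * w j = fd K Z P.1 (L m n (0, w)) :=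
    fun P w => (fd_L P.1 Z w).symm
  have hspan : Submodule.span ℂ (Set.range r) = ⊤ := by
    by_contra hcon
    obtain ⟨g, hg, hg2⟩ := Submodule.exists_le_ker_of_lt_top _ (lt_top_iff_ne_top.2 hcon)
    apply hg
    have h1 : (fun j => g (Pi.single j 1)) = 0 := by
      apply hS
      intro P hP
      rw [← hr ⟨P, hP⟩]
      have h2 : g (r ⟨P, hP⟩) = 0 := hg2 (Submodule.subset_span ⟨_, rfl⟩)
      rw [← h2]
      conv_rhs => rw [← LinearMap.sum_single_apply (fun _ : Fin n => ℂ) (r ⟨P, hP⟩)]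
      rw [map_sum]
      refine Finset.sum_congr rfl (fun j _ => ?_)
      have h3 : (Pi.single j (r ⟨P, hP⟩ j) : Fin n → ℂ) =
          r ⟨P, hP⟩ j • (Pi.single j (1 : ℂ) : Fin n → ℂ) := by
        funext i
        by_cases hij : i = j
        · rw [hij]
          simp
        · simp [hij]
      change _ = g (Pi.single j (r ⟨P, hP⟩ j))
      rw [h3, map_smul, smul_eq_mul]
    apply LinearMap.pi_ext'
    intro j
    ext
    have := congrFun h1 j
    simpa using this
  obtain ⟨b, hb1, hb2, hb3⟩ := exists_linearIndependent ℂ (Set.range r)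
  rw [hspan] at hb2
  let B : Basis b ℂ (Fin n → ℂ) := Basis.mk hb3 (by
    rw [Subtype.range_coe]
    exact hb2.ge)
  have : Fintype b := FiniteDimensional.fintypeBasisIndex B
  have hcard : Fintype.card b = n := by
    have := Module.finrank_eq_card_basis B
    rw [finrank_fintype_fun_eq_card, Fintype.card_fin] at this
    exact this.symm
  let e := (Fintype.equivFinOfCardEq hcard).symm
  choose P hP using fun i => hb1 (e i).2
  refine ⟨fun i => (P i).1, fun i => (P i).2, ?_⟩
  have h1 : LinearIndependent ℂ (Jac (fun i => (P i).1) Z).row := by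
    have h2 : (Jac (fun i => (P i).1) Z).row = (Subtype.val : b → (Fin n → ℂ)) ∘ e := by
      funext i
      exact hP i
    rw [h2]
    exact hb3.comp e e.injective
  have h3 := Matrix.linearIndependent_rows_iff_isUnit.1 h1
  exact ((Matrix.isUnit_iff_isUnit_det _).1 h3).ne_zero

/-- the coordinates of regular solutions -/
theorem rational (P : Fin n → MvPolynomial (Fin (m + n) ⊕ Fin (m + n)) K)
    (v : (Fin m → ℂ) × (Fin n → ℂ)) (h0 : Φ P v = 0) (h1 : (Jac P (L m n v)).det ≠ 0)
    (hv : ∀ j, v.1 j ∈ ecl K) (i : Fin n) : v.2 i ∈ ecl K := by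
  rw [← CC_ecl (K := K) (L m n v)]
  intro D hD
  have hD' : D ∈ Dl K (L m n v) := ⟨fun w hw => hD.1 w (le_ecl hw), hD.2⟩
  have h2 : zv (L m n v) D = L m n (0, fun i => D (v.2 i)) := by
    funext k
    refine Fin.addCases (fun j => ?_) (fun j => ?_) k
    · change D (L m n v (Fin.castAdd n j)) = L m n (0, fun i => D (v.2 i)) (Fin.castAdd n j)
      rw [L_apply, L_apply, Fin.append_left, Fin.append_left]
      exact hD.1 _ (hv j)
    · change D (L m n v (Fin.natAdd m j)) = L m n (0, fun i => D (v.2 i)) (Fin.natAdd m j)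
      rw [L_apply, L_apply, Fin.append_right, Fin.append_right]
  have h3 : (Jac P (L m n v)).mulVec (fun i => D (v.2 i)) = 0 := by
    rw [Jac_mulVec]
    funext i
    rw [← h2, fd_der hD']
    have h4 : aeval (pt (L m n v)) (P i) = 0 := congrFun h0 i
    rw [h4, map_zero]
    rfl
  exact congrFun (Matrix.eq_zero_of_mulVec_eq_zero h1 h3) i

/-- a chart -/
structure Ch (K : IntermediateField ℚ ℂ) (m k : ℕ) where
  /-- the centre -/
  c : Fin m → ℂ
  /-- the radius -/
  r : ℝ
  /-- the functions -/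
  f : (Fin m → ℂ) → (Fin k → ℂ)
  an : AnalyticOnNhd ℂ f (Metric.ball c r)
  rat : ∀ t ∈ Metric.ball c r, (∀ j, t j ∈ ecl K) → ∀ i, f t i ∈ ecl K

/-- the field generated by a point -/
noncomputable def adj (K : IntermediateField ℚ ℂ) {m : ℕ} (t : Fin m → ℂ) : IntermediateField ℚ ℂ :=
  K ⊔ IntermediateField.adjoin ℚ (range t)

/-- a regular system for finitely many elements -/
theorem exists_system {k : ℕ} {t : Fin m → ℂ} (ht : Gen K t) (u : Fin k → ℂ)
    (hu : ∀ i, u i ∈ ecl (adj K t)) :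
    ∃ (n : ℕ) (P : Fin n → MvPolynomial (Fin (m + n) ⊕ Fin (m + n)) K) (y : Fin n → ℂ)
      (e : Fin k → Fin n), Φ P (t, y) = 0 ∧ (Jac P (L m n (t, y))).det ≠ 0 ∧ ∀ i, y (e i) = u i := by
  classical
  obtain ⟨q, w, hw⟩ := common (K := adj K t) (Finset.univ.image u) (by
    intro c hc
    obtain ⟨i, -, rfl⟩ := Finset.mem_image.1 hc
    exact hu i)
  have hw' : ∀ i, u i ∈ CC (adj K t) w := fun i =>
    hw _ (Finset.mem_image.2 ⟨i, Finset.mem_univ _, rfl⟩)
  let T : Set (Fin (m + (k + q))) := {s | ∀ j : Fin q, s ≠ Fin.natAdd m (Fin.natAdd k j)}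
  obtain ⟨x, hx1, hx2⟩ := move (K := K) (Fin.append t (Fin.append u w)) T
  let y : Fin (k + q) → ℂ := fun i => x (Fin.natAdd m i)
  have hxt : ∀ j, x (Fin.castAdd (k + q) j) = t j := by
    intro j
    rw [hx1, Fin.append_left]
    intro l h
    have := congrArg Fin.val h
    simp at this
    omega
  have hxy : x = Fin.append t y := by
    funext s
    refine Fin.addCases (fun j => ?_) (fun j => ?_) s
    · rw [Fin.append_left, hxt]
    · rw [Fin.append_right]
  have hyu : ∀ i, y (Fin.castAdd q i) = u i := by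
    intro i
    change x (Fin.natAdd m (Fin.castAdd q i)) = u i
    rw [hx1, Fin.append_right, Fin.append_left]
    intro l h
    have := congrArg Fin.val h
    simp at this
    omega
  have h1 : rt K (Fin.append t (Fin.append u w)) T ≤ m := by
    unfold rt
    set Z := Fin.append t (Fin.append u w) with hZ
    have hmT : ∀ j : Fin m, Fin.castAdd (k + q) j ∈ T := by
      intro j l h
      have := congrArg Fin.val h
      simp at this
      omega
    let f : ((TT K Z).map (res T)) →ₗ[ℂ] (Fin m → ℂ) :=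
      (LinearMap.funLeft ℂ ℂ (fun j : Fin m => (⟨Fin.castAdd (k + q) j, hmT j⟩ : T))) ∘ₗ
        ((TT K Z).map (res T)).subtype
    have hf : Function.Injective f := by
      rw [← LinearMap.ker_eq_bot, LinearMap.ker_eq_bot']
      rintro ⟨_, ⟨_, ⟨D, hD, rfl⟩, rfl⟩⟩ h0
      have hDt : ∀ j, D (t j) = 0 := by
        intro j
        have := congrFun h0 j
        change D (Z (Fin.castAdd (k + q) j)) = 0 at this
        rwa [hZ, Fin.append_left] at this
      have hD' : D ∈ Dl (adj K t) w := by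
        refine ⟨?_, (Dl_append_right _ _ (Dl_append_right _ _ hD)).2⟩
        intro a ha
        have h2 : adj K t ≤ kl D := by
          apply sup_le
          · exact fun a ha => hD.1 a ha
          · rw [IntermediateField.adjoin_le_iff]
            rintro _ ⟨j, rfl⟩
            exact hDt j
        exact h2 ha
      apply Subtype.ext
      funext s
      obtain ⟨s, hs⟩ := s
      change D (Z s) = 0
      revert hs
      refine Fin.addCases (fun j => ?_) (fun j => ?_) s
      · intro _
        rw [hZ, Fin.append_left]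
        exact hDt j
      · refine Fin.addCases (fun i => ?_) (fun i => ?_) j
        · intro _
          rw [hZ, Fin.append_right, Fin.append_left]
          exact hw' i D hD'
        · intro hs
          exact absurd rfl (hs i)
    have h3 := LinearMap.finrank_le_finrank_of_injective hf
    rwa [finrank_fintype_fun_eq_card, Fintype.card_fin] at h3
  have h2 : wd K x ≤ m := hx2.trans h1
  -- the projection is injective
  let p : (TT K x) →ₗ[ℂ] (Fin m → ℂ) :=
    (LinearMap.funLeft ℂ ℂ (Fin.castAdd (k + q))) ∘ₗ (TT K x).subtype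
  have hp1 : LinearMap.range p = ⊤ := by
    rw [eq_top_iff]
    intro v _
    have h3 : v ∈ (Dl K (Fin.append t y)).map (zv t) := by
      rw [ht]
      trivial
    obtain ⟨D, hD, rfl⟩ := h3
    rw [← hxy] at hD
    refine ⟨⟨zv x D, ⟨D, hD, rfl⟩⟩, ?_⟩
    funext j
    change D (x (Fin.castAdd (k + q) j)) = D (t j)
    rw [hxt]
  have hp2 : Function.Injective p := by
    have h3 := p.finrank_range_add_finrank_ker
    rw [hp1, finrank_top, finrank_fintype_fun_eq_card, Fintype.card_fin] at h3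
    have h4 : finrank ℂ (TT K x) = wd K x := rfl
    rw [h4] at h3
    have h5 : finrank ℂ (LinearMap.ker p) = 0 := by omega
    rw [← LinearMap.ker_eq_bot]
    exact Submodule.finrank_eq_zero.1 h5
  obtain ⟨S, hS1, hS2⟩ := exists_finset_eq K x
  obtain ⟨P, hP1, hP2⟩ := extract (m := m) (n := k + q) x S (by
    intro w' hw'
    have h3 : L m (k + q) (0, w') ∈ TT K x := hS2 _ hw'
    have h4 : (⟨_, h3⟩ : TT K x) = 0 := by
      apply hp2
      rw [map_zero]
      funext j
      change L m (k + q) (0, w') (Fin.castAdd (k + q) j) = 0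
      rw [L_apply, Fin.append_left]
      rfl
    have h5 : L m (k + q) (0, w') = 0 := congrArg Subtype.val h4
    funext i
    have h6 := congrFun h5 (Fin.natAdd m i)
    rw [L_apply, Fin.append_right] at h6
    exact h6)
  refine ⟨k + q, P, y, Fin.castAdd q, ?_, ?_, hyu⟩
  · funext i
    change aeval (pt (L m (k + q) (t, y))) (P i) = 0
    rw [L_apply]
    change aeval (pt (Fin.append t y)) (P i) = 0
    rw [← hxy]
    exact hS1 _ (hP1 i)
  · rw [L_apply]
    change (Jac P (Fin.append t y)).det ≠ 0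
    rw [← hxy]
    exact hP2

theorem countable_poly (hK : Countable K) {σ : Type} [Finite σ] : Countable (MvPolynomial σ K) := by
  have h1 : Cardinal.mk (MvPolynomial σ K) ≤ Cardinal.aleph0 := by
    refine (MvPolynomial.cardinalMk_le_max).trans ?_
    rw [max_le_iff, max_le_iff]
    exact ⟨⟨Cardinal.mk_le_aleph0, Cardinal.mk_le_aleph0⟩, le_rfl⟩
  exact Cardinal.mk_le_aleph0_iff.1 h1

/-- **The atlas.** -/
theorem atlas (hK : Countable K) (m k : ℕ) : ∃ (ι : Type) (_ : Countable ι) (g : ι → Ch K m k),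
    ∀ t : Fin m → ℂ, Gen K t → ∀ u : Fin k → ℂ, (∀ i, u i ∈ ecl (adj K t)) →
      ∃ i, t ∈ Metric.ball (g i).c (g i).r ∧ (g i).f t = u := by
  classical
  let A : (n : ℕ) → (Fin n → MvPolynomial (Fin (m + n) ⊕ Fin (m + n)) K) →
    Set ((Fin m → ℂ) × (Fin n → ℂ)) := fun n P => {u | Φ P u = 0 ∧ (Jac P (L m n u)).det ≠ 0}
  choose r F hr hF1 hF2 hF3 using fun (n : ℕ)
    (P : Fin n → MvPolynomial (Fin (m + n) ⊕ Fin (m + n)) K) (u : A n P) =>
      chart P u.1 u.2.1 u.2.2
  have hcov : ∀ (n : ℕ) (P : Fin n → MvPolynomial (Fin (m + n) ⊕ Fin (m + n)) K),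
      ∃ T : Set (A n P), T.Countable ∧ ∀ v ∈ A n P, ∃ u ∈ T, v.1 ∈ Metric.ball u.1.1 (r n P u) ∧
        F n P u v.1 = v.2 := by
    intro n P
    let U : (Fin m → ℂ) × (Fin n → ℂ) → Set ((Fin m → ℂ) × (Fin n → ℂ)) := fun x =>
      if hx : x ∈ A n P then {v | Φ P v = 0 → v.1 ∈ Metric.ball x.1 (r n P ⟨x, hx⟩) ∧
        F n P ⟨x, hx⟩ v.1 = v.2} else univ
    obtain ⟨T, hTA, hTc, hT⟩ := TopologicalSpace.countable_cover_nhdsWithin (s := A n P)
      (f := U) (by
        intro x hx
        apply mem_nhdsWithin_of_mem_nhds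
        have h1 := hF3 n P ⟨x, hx⟩
        simp only [U, dif_pos hx]
        exact h1)
    refine ⟨Subtype.val ⁻¹' T, hTc.preimage Subtype.val_injective, ?_⟩
    intro v hv
    obtain ⟨x, hx, hxv⟩ := Set.mem_iUnion₂.1 (hT hv)
    have hxA := hTA hx
    simp only [U, dif_pos hxA] at hxv
    exact ⟨⟨x, hxA⟩, hx, hxv hv.1⟩
  choose T hTc hT using hcov
  have hc1 : ∀ (n : ℕ) (P : Fin n → MvPolynomial (Fin (m + n) ⊕ Fin (m + n)) K),
      Countable (T n P) := fun n P => (hTc n P).to_subtype
  have hc2 : ∀ n : ℕ, Countable (MvPolynomial (Fin (m + n) ⊕ Fin (m + n)) K) :=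
    fun n => countable_poly hK
  refine ⟨Σ (n : ℕ) (P : Fin n → MvPolynomial (Fin (m + n) ⊕ Fin (m + n)) K),
    (T n P) × (Fin k → Fin n), inferInstance, fun i =>
    { c := i.2.2.1.1.1.1
      r := r i.1 i.2.1 i.2.2.1.1
      f := fun t j => F i.1 i.2.1 i.2.2.1.1 t (i.2.2.2 j)
      an := ?_
      rat := ?_ }, ?_⟩
  · have h1 := hF1 i.1 i.2.1 i.2.2.1.1
    intro t ht
    rw [analyticAt_pi_iff]
    intro j
    exact analyticAt_pi_iff.1 (h1 t ht) _
  · intro t ht htr j
    have h1 := hF2 i.1 i.2.1 i.2.2.1.1 t ht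
    exact rational i.2.1 (t, F i.1 i.2.1 i.2.2.1.1 t) h1.1 h1.2 htr _
  · intro t ht u hu
    obtain ⟨n, P, y, e, h1, h2, h3⟩ := exists_system ht u hu
    obtain ⟨x, hx, hxv1, hxv2⟩ := hT n P (t, y) ⟨h1, h2⟩
    refine ⟨⟨n, P, ⟨x, hx⟩, e⟩, hxv1, ?_⟩
    funext j
    change F n P x t (e j) = u j
    rw [← h3 j]
    exact congrFun hxv2 (e j)

end Pool.Agent.Helper78.MZ.Atlas
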