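import Mathlib
import Pool.Agent.Helper78.MZ.Abs

/-!
# Covering the set where a function is small and a partial derivative is large
-/

set_option autoImplicit false

namespace Pool.Agent.Helper78.MZ.Cover

open Pool.Agent.Helper78.QS.Cover (Cv floor_close floor_bound)
open Pool.Agent.Helper78.QS.Taylor (arith)

variable {m : ℕ}

/-- the estimate for two points of the same cell -/
theorem close {G : (Fin m → ℂ) → ℂ} {g : Fin m → (Fin m → ℂ) → ℂ} {Λ A B E F : ℝ} {j : Fin m}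
    {t t' : Fin m → ℂ} (hΛ0 : 0 ≤ Λ) (hA1 : 1 ≤ A) (hB : 4 + (4 * m + 12) * Λ ≤ B) (hE1 : 1 ≤ E)
    (hF1 : 1 ≤ F) (h0 : ∀ k, ‖g k t‖ ≤ Λ * A)
    (h1 : ‖G t' - G t - ∑ k, g k t * (t' k - t k)‖ ≤ Λ * A * ‖t' - t‖ ^ 2)
    (hX : ‖G t'‖ * E ≤ 1) (hY : ‖G t‖ * E ≤ 1) (hW : 1 ≤ ‖g j t‖ * F)
    (hk : ∀ k, k ≠ j → ‖t' k - t k‖ ≤ 2 / E) (hj : ‖t' j - t j‖ * (F * (A * B)) ≤ 2) :
    ‖t' j - t j‖ * E ≤ F * (A * B) := by
  classical
  set a := ‖t' j - t j‖ with ha
  have ha0 : 0 ≤ a := norm_nonneg _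
  have hsq : ‖t' - t‖ ^ 2 ≤ 4 / E + a ^ 2 := by
    have h6 : ‖t' - t‖ ≤ max (2 / E) a := by
      rw [pi_norm_le_iff_of_nonneg (le_max_of_le_right ha0)]
      intro k
      by_cases hkj : k = j
      · rw [hkj, Pi.sub_apply]
        exact le_max_right _ _
      · exact (hk k hkj).trans (le_max_left _ _)
    have h7 : ‖t' - t‖ ^ 2 ≤ (max (2 / E) a) ^ 2 := by gcongr
    have h8 : (2 / E) ^ 2 ≤ 4 / E := by
      rw [div_pow, div_le_div_iff₀ (by positivity) (by linarith)]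
      nlinarith
    rcases max_cases (2 / E) a with ⟨h9, _⟩ | ⟨h9, _⟩
    · rw [h9] at h7
      nlinarith [sq_nonneg a]
    · rw [h9] at h7
      have : 0 ≤ 4 / E := by positivity
      linarith
  have hsum : ∑ k, g k t * (t' k - t k) = g j t * (t' j - t j) +
      ∑ k ∈ Finset.univ.erase j, g k t * (t' k - t k) := by
    rw [← Finset.add_sum_erase _ _ (Finset.mem_univ j)]
  have hrest : ‖∑ k ∈ Finset.univ.erase j, g k t * (t' k - t k)‖ ≤ m * (Λ * A * (2 / E)) := by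
    calc _ ≤ ∑ k ∈ Finset.univ.erase j, ‖g k t * (t' k - t k)‖ := norm_sum_le _ _
      _ ≤ ∑ k ∈ Finset.univ.erase j, Λ * A * (2 / E) := by
        refine Finset.sum_le_sum (fun k hk' => ?_)
        rw [norm_mul]
        exact mul_le_mul (h0 k) (hk k (Finset.ne_of_mem_erase hk')) (norm_nonneg _)
          (mul_nonneg hΛ0 (by linarith))
      _ ≤ ∑ k : Fin m, Λ * A * (2 / E) := by
        apply Finset.sum_le_sum_of_subset_of_nonneg (Finset.erase_subset _ _)
        intro _ _ _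
        positivity
      _ = _ := by simp
  have hmain : ‖g j t‖ * a ≤ ‖G t'‖ + ‖G t‖ + m * (Λ * A * (2 / E)) +
      Λ * A * (4 / E + a ^ 2) := by
    have e1 : ‖g j t‖ * a = ‖g j t * (t' j - t j)‖ := by rw [norm_mul, ha]
    have e2 : g j t * (t' j - t j) = (G t' - G t) -
        (∑ k ∈ Finset.univ.erase j, g k t * (t' k - t k)) -
        (G t' - G t - ∑ k, g k t * (t' k - t k)) := by
      rw [hsum]
      ring
    rw [e1, e2]
    have e3 := norm_sub_le ((G t' - G t) - (∑ k ∈ Finset.univ.erase j, g k t * (t' k - t k)))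
        (G t' - G t - ∑ k, g k t * (t' k - t k))
    have e4 := norm_sub_le (G t' - G t) (∑ k ∈ Finset.univ.erase j, g k t * (t' k - t k))
    have e5 := norm_sub_le (G t') (G t)
    have e6 : Λ * A * ‖t' - t‖ ^ 2 ≤ Λ * A * (4 / E + a ^ 2) :=
      mul_le_mul_of_nonneg_left hsq (mul_nonneg hΛ0 (by linarith))
    linarith
  exact arith (N := m) (Nat.cast_nonneg _) hΛ0 hA1 hB hE1 hF1 ha0 hX hY hW hmain hj

/-- the covering -/
theorem cover (m R a Λ : ℕ) : ∃ c : ℕ, ∀ H : ℕ, 2 ≤ H → ∀ p e : ℕ, ∀ (K : Set (Fin m → ℂ))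
    (_ : ∀ t ∈ K, ‖t‖ ≤ R) (G : (Fin m → ℂ) → ℂ) (g : Fin m → (Fin m → ℂ) → ℂ)
    (_ : ∀ t ∈ K, ∀ k, ‖g k t‖ ≤ Λ * (H : ℝ) ^ a)
    (_ : ∀ t ∈ K, ∀ t' ∈ K, ‖G t' - G t - ∑ k, g k t * (t' k - t k)‖ ≤
      Λ * (H : ℝ) ^ a * ‖t' - t‖ ^ 2) (j : Fin m),
    Cv {t | t ∈ K ∧ ‖G t‖ * (H : ℝ) ^ p ≤ 1 ∧ 1 ≤ ‖g j t‖ * (H : ℝ) ^ e}
      (H ^ (c + 2 * (m - 1) * p + 2 * m * e))
      (fun T => ∀ x ∈ T, ∀ y ∈ T, dist x y * (H : ℝ) ^ p ≤ (H : ℝ) ^ (c + e)) := by
  classical
  obtain ⟨c₁, hc₁⟩ := pow_unbounded_of_one_lt (4 + (4 * m + 12) * Λ : ℝ) one_lt_two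
  obtain ⟨c₃, hc₃⟩ := pow_unbounded_of_one_lt (2 * R + 3 : ℝ) one_lt_two
  refine ⟨2 * m * c₃ + 2 * (a + c₁) + 1, ?_⟩
  intro H hH p e K hK G g h0 h1 j
  have hH1 : 1 ≤ H := by omega
  have hHr : (1 : ℝ) ≤ H := by exact_mod_cast hH1
  have hHr2 : (2 : ℝ) ≤ H := by exact_mod_cast hH
  set S : Set (Fin m → ℂ) := {t | t ∈ K ∧ ‖G t‖ * (H : ℝ) ^ p ≤ 1 ∧ 1 ≤ ‖g j t‖ * (H : ℝ) ^ e}
    with hS
  let N : Fin m → ℕ := fun k => if k = j then H ^ (e + (a + c₁)) else H ^ p
  have hN1 : ∀ k, 1 ≤ N k := by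
    intro k
    simp only [N]
    split_ifs <;> exact Nat.one_le_pow _ _ (by omega)
  let co : Fin 2 → ℂ → ℝ := fun b z => if b = 0 then z.re else z.im
  have hco : ∀ b z, |co b z| ≤ ‖z‖ := by
    intro b z
    simp only [co]
    split_ifs
    · exact Complex.abs_re_le_norm z
    · exact Complex.abs_im_le_norm z
  let lab : (Fin m → ℂ) → (Fin m × Fin 2) → ℤ := fun t q => ⌊co q.2 (t q.1) * (N q.1 : ℝ)⌋
  let M : (Fin m × Fin 2) → ℕ := fun q => (R + 1) * N q.1
  have hlab := Cv.label S lab M (by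
    intro t ht q
    apply floor_bound _ (hN1 q.1)
    exact (hco _ _).trans ((norm_le_pi_norm t q.1).trans (hK t ht.1)))
  refine hlab.mono subset_rfl ?_ ?_
  · have hc₃' : 2 * R + 3 ≤ H ^ c₃ := by
      have h2 : 2 * R + 3 < 2 ^ c₃ := by exact_mod_cast hc₃
      exact h2.le.trans (Nat.pow_le_pow_left hH _)
    have e2 : ∀ q : Fin m × Fin 2, 2 * M q + 1 ≤
        H ^ (c₃ + if q.1 = j then e + (a + c₁) else p) := by
      intro q
      have h2 : N q.1 = H ^ (if q.1 = j then e + (a + c₁) else p) := by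
        simp only [N]
        split_ifs <;> rfl
      have h3 := hN1 q.1
      calc 2 * M q + 1 = 2 * ((R + 1) * N q.1) + 1 := rfl
        _ ≤ (2 * R + 3) * N q.1 := by nlinarith
        _ ≤ H ^ c₃ * N q.1 := Nat.mul_le_mul_right _ hc₃'
        _ = _ := by rw [h2, ← pow_add]
    calc ∏ q, (2 * M q + 1) ≤ ∏ q : Fin m × Fin 2,
          H ^ (c₃ + if q.1 = j then e + (a + c₁) else p) := Finset.prod_le_prod' (fun q _ => e2 q)
      _ = H ^ (∑ q : Fin m × Fin 2, (c₃ + if q.1 = j then e + (a + c₁) else p)) :=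
          Finset.prod_pow_eq_pow_sum _ _ _
      _ ≤ _ := by
        apply Nat.pow_le_pow_right hH1
        rw [Fintype.sum_prod_type]
        have h2 : ∀ k : Fin m, ∑ _b : Fin 2, (c₃ + if k = j then e + (a + c₁) else p) =
            2 * (c₃ + if k = j then e + (a + c₁) else p) := by
          intro k
          rw [Finset.sum_const, Finset.card_univ, Fintype.card_fin, smul_eq_mul]
        simp only [h2]
        rw [← Finset.mul_sum, Finset.sum_add_distrib, Finset.sum_const, Finset.card_univ,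
          Fintype.card_fin, smul_eq_mul, ← Finset.add_sum_erase _ _ (Finset.mem_univ j), if_pos rfl]
        have h3 : ∑ k ∈ Finset.univ.erase j, (if k = j then e + (a + c₁) else p) = (m - 1) * p := by
          rw [Finset.sum_congr rfl (g := fun _ => p)
            (fun k hk => if_neg (Finset.ne_of_mem_erase hk)), Finset.sum_const,
            Finset.card_erase_of_mem (Finset.mem_univ j), Finset.card_univ, Fintype.card_fin,
            smul_eq_mul]
        rw [h3]
        have h4 : 1 ≤ m := by have := j.2; omega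
        have h5 : e ≤ m * e := Nat.le_mul_of_pos_left e h4
        have h6 : 2 * (m * c₃ + (e + (a + c₁) + (m - 1) * p)) =
          2 * m * c₃ + 2 * (a + c₁) + 2 * (m - 1) * p + 2 * e := by ring
        rw [h6, mul_assoc 2 m e]
        omega
  · rintro T ⟨hTS, hTl⟩ x hx y hy
    have hxS := hTS hx
    have hyS := hTS hy
    have hl := hTl x hx y hy
    have hcl : ∀ k, ‖y k - x k‖ * (N k : ℝ) ≤ 2 := by
      intro k
      have hNpos : (0 : ℝ) < N k := by exact_mod_cast (by have := hN1 k; omega : 0 < N k)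
      have h2 : |(x k).re - (y k).re| * (N k : ℝ) ≤ 1 := by
        apply floor_close hNpos
        have := congrFun hl (k, 0)
        simpa only [lab, co, if_pos] using this
      have h3 : |(x k).im - (y k).im| * (N k : ℝ) ≤ 1 := by
        apply floor_close hNpos
        have := congrFun hl (k, 1)
        simpa [lab, co] using this
      have h4 : ‖y k - x k‖ ≤ |(x k).re - (y k).re| + |(x k).im - (y k).im| := by
        have := Complex.norm_le_abs_re_add_abs_im (y k - x k)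
        rw [Complex.sub_re, Complex.sub_im, abs_sub_comm (y k).re, abs_sub_comm (y k).im] at this
        exact this
      nlinarith
    have hE : (1 : ℝ) ≤ (H : ℝ) ^ p := one_le_pow₀ hHr
    have hHp : 0 < (H : ℝ) ^ p := by positivity
    have hj : ‖y j - x j‖ * ((H : ℝ) ^ e * ((H : ℝ) ^ a * (H : ℝ) ^ c₁)) ≤ 2 := by
      have h2 := hcl j
      have h3 : (N j : ℝ) = (H : ℝ) ^ e * ((H : ℝ) ^ a * (H : ℝ) ^ c₁) := by
        simp only [N, if_pos]
        push_cast
        rw [pow_add, pow_add]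
      rwa [h3] at h2
    have hk : ∀ k, k ≠ j → ‖y k - x k‖ ≤ 2 / (H : ℝ) ^ p := by
      intro k hk
      have h2 := hcl k
      have h3 : (N k : ℝ) = (H : ℝ) ^ p := by
        simp only [N, if_neg hk]
        push_cast
        rfl
      rw [h3] at h2
      rwa [le_div_iff₀ hHp]
    have hmain := close (G := G) (g := g) (Λ := Λ) (A := (H : ℝ) ^ a) (B := (H : ℝ) ^ c₁)
      (E := (H : ℝ) ^ p) (F := (H : ℝ) ^ e) (j := j) (t := x) (t' := y) (Nat.cast_nonneg _)
      (one_le_pow₀ hHr) (by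
        refine hc₁.le.trans ?_
        exact pow_le_pow_left₀ (by norm_num) hHr2 _) hE (one_le_pow₀ hHr) (h0 x hxS.1)
      (h1 x hxS.1 y hyS.1) hyS.2.1 hxS.2.1 hxS.2.2 hk hj
    have h2 : dist x y ≤ (H : ℝ) ^ (2 * m * c₃ + 2 * (a + c₁) + 1 + e) / (H : ℝ) ^ p := by
      rw [dist_comm, dist_eq_norm, pi_norm_le_iff_of_nonneg (by positivity)]
      intro k
      rw [le_div_iff₀ hHp, Pi.sub_apply]
      by_cases hkj : k = j
      · rw [hkj]
        refine hmain.trans ?_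
        rw [← pow_add, ← pow_add]
        exact pow_le_pow_right₀ hHr (by omega)
      · have h3 := hk k hkj
        rw [le_div_iff₀ hHp] at h3
        refine h3.trans (hHr2.trans ?_)
        calc (H : ℝ) = (H : ℝ) ^ 1 := (pow_one _).symm
          _ ≤ _ := pow_le_pow_right₀ hHr (by omega)
    rwa [le_div_iff₀ hHp] at h2

end Pool.Agent.Helper78.MZ.Cover
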