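import Mathlib
import Pool.Agent.Helper78.MZ.Cover

/-!
# Iterated partial derivatives of analytic functions of several variables
-/

set_option autoImplicit false

namespace Pool.Agent.Helper78.MZ.Fun

open Filter Topology

variable {m : ℕ}

/-- iterated partial derivatives -/
noncomputable def D : List (Fin m) → ((Fin m → ℂ) → ℂ) → (Fin m → ℂ) → ℂ
  | [], f => f
  | j :: w, f => fun t => fderiv ℂ (D w f) t (Pi.single j 1)

theorem an_apply {f : (Fin m → ℂ) → ℂ} {t : Fin m → ℂ} (h : AnalyticAt ℂ f t) (v : Fin m → ℂ) :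
    AnalyticAt ℂ (fun x => fderiv ℂ f x v) t :=
  ((ContinuousLinearMap.apply ℂ ℂ v).analyticAt _).comp h.fderiv

theorem an {f : (Fin m → ℂ) → ℂ} {U : Set (Fin m → ℂ)} (h : AnalyticOnNhd ℂ f U)
    (w : List (Fin m)) : AnalyticOnNhd ℂ (D w f) U := by
  induction w with
  | nil => exact h
  | cons j w ih => exact fun t ht => an_apply (ih t ht) _

theorem fd {f : (Fin m → ℂ) → ℂ} (w : List (Fin m)) (t v : Fin m → ℂ) :
    fderiv ℂ (D w f) t v = ∑ k, v k * D (k :: w) f t := by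
  have h1 : v = ∑ k, v k • (Pi.single k (1 : ℂ) : Fin m → ℂ) := by
    funext i
    rw [Finset.sum_apply, Finset.sum_eq_single i]
    · rw [Pi.smul_apply, Pi.single_eq_same, smul_eq_mul, mul_one]
    · intro j _ hj
      rw [Pi.smul_apply, Pi.single_eq_of_ne (Ne.symm hj), smul_zero]
    · intro h
      exact absurd (Finset.mem_univ _) h
  conv_lhs => rw [h1, map_sum]
  refine Finset.sum_congr rfl (fun k _ => ?_)
  rw [map_smul, smul_eq_mul]
  rfl

variable {S : Type} [Fintype S]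

/-- combinations -/
noncomputable def G (f : S → (Fin m → ℂ) → ℂ) (p : S → ℂ) (w : List (Fin m)) (t : Fin m → ℂ) : ℂ :=
  ∑ s, p s * D w (f s) t

/-- if all derivatives vanish at a point then the function vanishes nearby -/
theorem idn {U : Set (Fin m → ℂ)} (hU : IsOpen U) {f : S → (Fin m → ℂ) → ℂ}
    (hf : ∀ s, AnalyticOnNhd ℂ (f s) U) {t : Fin m → ℂ} (ht : t ∈ U) (p : S → ℂ)
    (h : ∀ w, G f p w t = 0) : ∀ᶠ t' in 𝓝 t, ∑ s, p s * f s t' = 0 := by
  obtain ⟨r, hr, hrU⟩ := Metric.isOpen_iff.1 hU t ht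
  filter_upwards [Metric.ball_mem_nhds t hr] with t' ht'
  set v := t' - t with hv
  have hvr : ‖v‖ < r := by
    rw [hv, ← dist_eq_norm]
    exact ht'
  let Ω : Set ℂ := {ζ | ‖ζ • v‖ < r}
  have hΩo : IsOpen Ω := isOpen_lt (by fun_prop) continuous_const
  have hΩU : ∀ ζ ∈ Ω, t + ζ • v ∈ U := by
    intro ζ hζ
    apply hrU
    rw [Metric.mem_ball, dist_eq_norm, add_sub_cancel_left]
    exact hζ
  have h0Ω : (0 : ℂ) ∈ Ω := by
    change ‖(0 : ℂ) • v‖ < r
    rw [zero_smul, norm_zero]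
    exact hr
  have h1Ω : (1 : ℂ) ∈ Ω := by
    change ‖(1 : ℂ) • v‖ < r
    rw [one_smul]
    exact hvr
  have hΩc : IsPreconnected Ω := by
    have : Convex ℝ Ω := by
      intro x hx y hy a b ha hb hab
      change ‖(a • x + b • y) • v‖ < r
      have hx' : ‖x • v‖ < r := hx
      have hy' : ‖y • v‖ < r := hy
      rw [norm_smul] at hx' hy' ⊢
      have h1 : ‖a • x + b • y‖ ≤ a * ‖x‖ + b * ‖y‖ := by
        refine (norm_add_le _ _).trans ?_
        rw [norm_smul, norm_smul, Real.norm_of_nonneg ha, Real.norm_of_nonneg hb]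
      have h2 : ‖a • x + b • y‖ * ‖v‖ ≤ (a * ‖x‖ + b * ‖y‖) * ‖v‖ :=
        mul_le_mul_of_nonneg_right h1 (norm_nonneg _)
      have h3 : (a * ‖x‖ + b * ‖y‖) * ‖v‖ = a * (‖x‖ * ‖v‖) + b * (‖y‖ * ‖v‖) := by ring
      rw [h3] at h2
      refine lt_of_le_of_lt h2 ?_
      rcases ha.eq_or_lt with h4 | h4
      · rw [← h4] at hab ⊢
        rw [zero_add] at hab
        rw [hab, zero_mul, zero_add, one_mul]
        exact hy'
      · have h5 : a * (‖x‖ * ‖v‖) < a * r := mul_lt_mul_of_pos_left hx' h4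
        have h6 : b * (‖y‖ * ‖v‖) ≤ b * r := mul_le_mul_of_nonneg_left hy'.le hb
        calc _ < a * r + b * r := add_lt_add_of_lt_of_le h5 h6
          _ = r := by rw [← add_mul, hab, one_mul]
    exact this.isPreconnected
  let φ : List (Fin m) → ℂ → ℂ := fun w ζ => G f p w (t + ζ • v)
  have hline : ∀ ζ : ℂ, HasDerivAt (fun ζ : ℂ => t + ζ • v) v ζ := by
    intro ζ
    have := ((hasDerivAt_id ζ).smul_const v).const_add t
    simpa using this
  have hφd : ∀ w, ∀ ζ ∈ Ω, HasDerivAt (φ w) (∑ k, v k * φ (k :: w) ζ) ζ := by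
    intro w ζ hζ
    have h1 : ∀ s, HasDerivAt (fun ζ : ℂ => p s * D w (f s) (t + ζ • v))
        (p s * ∑ k, v k * D (k :: w) (f s) (t + ζ • v)) ζ := by
      intro s
      have h2 : HasFDerivAt (D w (f s)) (fderiv ℂ (D w (f s)) (t + ζ • v)) (t + ζ • v) :=
        (an (hf s) w _ (hΩU ζ hζ)).differentiableAt.hasFDerivAt
      have h3 := h2.comp_hasDerivAt ζ (hline ζ)
      rw [fd] at h3
      exact h3.const_mul (p s)
    have h4 := HasDerivAt.fun_sum (u := Finset.univ) (fun s _ => h1 s)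
    have h5 : ∑ s, p s * ∑ k, v k * D (k :: w) (f s) (t + ζ • v) = ∑ k, v k * φ (k :: w) ζ := by
      simp only [φ, G, Finset.mul_sum]
      rw [Finset.sum_comm]
      exact Finset.sum_congr rfl (fun _ _ => Finset.sum_congr rfl (fun _ _ => by ring))
    rw [h5] at h4
    exact h4
  have hφa : ∀ w, AnalyticOnNhd ℂ (φ w) Ω := by
    intro w
    apply DifferentiableOn.analyticOnNhd _ hΩo
    exact fun ζ hζ => (hφd w ζ hζ).differentiableAt.differentiableWithinAt
  have hit : ∀ i : ℕ, ∀ w, iteratedDeriv i (φ w) 0 = 0 := by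
    intro i
    induction i with
    | zero =>
      intro w
      rw [iteratedDeriv_zero]
      change G f p w (t + (0 : ℂ) • v) = 0
      rw [zero_smul, add_zero]
      exact h w
    | succ i ih =>
      intro w
      rw [iteratedDeriv_succ']
      have h1 : deriv (φ w) =ᶠ[𝓝 0] (fun ζ => ∑ k, v k * φ (k :: w) ζ) := by
        filter_upwards [hΩo.mem_nhds h0Ω] with ζ hζ
        exact (hφd w ζ hζ).deriv
      rw [h1.iteratedDeriv_eq, iteratedDeriv_fun_sum]
      · refine Finset.sum_eq_zero (fun k _ => ?_)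
        rw [iteratedDeriv_const_mul_field, ih, mul_zero]
      · intro k _
        exact (analyticAt_const.mul (hφa (k :: w) 0 h0Ω)).contDiffAt
  have h2 : ∀ᶠ ζ in 𝓝 (0 : ℂ), φ [] ζ = 0 := by
    rw [← analyticOrderAt_eq_top, ENat.eq_top_iff_forall_ge]
    intro n
    exact (natCast_le_analyticOrderAt_iff_iteratedDeriv_eq_zero (hφa [] 0 h0Ω)).2
      (fun i _ => hit i [])
  have h3 := (hφa []).eqOn_zero_of_preconnected_of_eventuallyEq_zero hΩc h0Ω h2 h1Ω
  change G f p [] (t + (1 : ℂ) • v) = 0 at h3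
  rw [one_smul, hv, add_sub_cancel] at h3
  exact h3

/-- uniform nondegeneracy on compact sets -/
theorem nondeg {U : Set (Fin m → ℂ)} (hU : IsOpen U) {f : S → (Fin m → ℂ) → ℂ}
    (hf : ∀ s, AnalyticOnNhd ℂ (f s) U)
    (hli : ∀ t ∈ U, ∀ p : S → ℂ, (∀ᶠ t' in 𝓝 t, ∑ s, p s * f s t' = 0) → p = 0)
    {K : Set (Fin m → ℂ)} (hK : IsCompact K) (hKU : K ⊆ U) :
    ∃ (W : Finset (List (Fin m))) (N : ℕ), ∀ t ∈ K, ∀ p : S → ℂ, ∃ w ∈ W, ‖p‖ ≤ N * ‖G f p w t‖ := by
  classical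
  let V : (List (Fin m)) × ℕ → Set ((Fin m → ℂ) × (S → ℂ)) := fun q =>
    {x | x.1 ∈ U ∧ 1 < (q.2 : ℝ) * ‖G f x.2 q.1 x.1‖}
  have hVo : ∀ q, IsOpen (V q) := by
    intro q
    have h1 : ContinuousOn (fun x : (Fin m → ℂ) × (S → ℂ) => (q.2 : ℝ) * ‖G f x.2 q.1 x.1‖)
        (U ×ˢ Set.univ) := by
      apply ContinuousOn.mul continuousOn_const
      apply ContinuousOn.norm
      unfold G
      apply continuousOn_finset_sum
      intro s _
      apply ContinuousOn.mul
      · exact (by fun_prop : Continuous (fun x : (Fin m → ℂ) × (S → ℂ) => x.2 s)).continuousOn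
      · exact (an (hf s) q.1).continuousOn.comp continuousOn_fst (fun x hx => hx.1)
    have h2 := h1.isOpen_inter_preimage (hU.prod isOpen_univ) (isOpen_Ioi (a := (1 : ℝ)))
    have h3 : V q = (U ×ˢ Set.univ) ∩
        (fun x : (Fin m → ℂ) × (S → ℂ) => (q.2 : ℝ) * ‖G f x.2 q.1 x.1‖) ⁻¹' Set.Ioi 1 := by
      ext x
      simp only [V, Set.mem_inter_iff, Set.mem_prod, Set.mem_univ, and_true, Set.mem_preimage,
        Set.mem_Ioi]
      rfl
    rw [h3]
    exact h2
  have hcomp : IsCompact (K ×ˢ Metric.sphere (0 : S → ℂ) 1) := hK.prod (isCompact_sphere _ _)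
  obtain ⟨T, hT⟩ := hcomp.elim_finite_subcover V hVo (by
    rintro ⟨t, p⟩ ⟨ht, hp⟩
    have hp1 : ‖p‖ = 1 := by simpa using hp
    have htU := hKU ht
    by_contra hcon
    have h1 : ∀ w, G f p w t = 0 := by
      intro w
      by_contra h2
      have h3 : 0 < ‖G f p w t‖ := norm_pos_iff.2 h2
      obtain ⟨n, hn⟩ := exists_nat_gt (1 / ‖G f p w t‖)
      apply hcon
      refine Set.mem_iUnion.2 ⟨(w, n), htU, ?_⟩
      rwa [div_lt_iff₀ h3] at hn
    have h2 := hli t htU p (idn hU hf htU p h1)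
    rw [h2, norm_zero] at hp1
    exact zero_ne_one hp1)
  refine ⟨insert [] (T.image Prod.fst), T.sup Prod.snd, ?_⟩
  intro t ht p
  by_cases hp : p = 0
  · refine ⟨[], Finset.mem_insert_self _ _, ?_⟩
    rw [hp, norm_zero]
    positivity
  · have hp0 : 0 < ‖p‖ := norm_pos_iff.2 hp
    have h1 : (t, ((‖p‖ : ℂ)⁻¹) • p) ∈ K ×ˢ Metric.sphere (0 : S → ℂ) 1 := by
      refine ⟨ht, ?_⟩
      rw [mem_sphere_zero_iff_norm, norm_smul, norm_inv, Complex.norm_real, norm_norm,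
        inv_mul_cancel₀ hp0.ne']
    obtain ⟨q, hq, hq2⟩ := Set.mem_iUnion₂.1 (hT h1)
    refine ⟨q.1, Finset.mem_insert_of_mem (Finset.mem_image_of_mem _ hq), ?_⟩
    have h2 := hq2.2
    have h3 : G f (((‖p‖ : ℂ)⁻¹) • p) q.1 t = (‖p‖ : ℂ)⁻¹ * G f p q.1 t := by
      unfold G
      rw [Finset.mul_sum]
      refine Finset.sum_congr rfl (fun s _ => ?_)
      rw [Pi.smul_apply, smul_eq_mul, mul_assoc]
    change 1 < (q.2 : ℝ) * ‖G f (((‖p‖ : ℂ)⁻¹) • p) q.1 t‖ at h2
    rw [h3, norm_mul, norm_inv, Complex.norm_real, norm_norm] at h2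
    have h4 : ‖p‖ < (q.2 : ℝ) * ‖G f p q.1 t‖ := by
      have h5 := mul_lt_mul_of_pos_left h2 hp0
      rw [mul_one] at h5
      calc ‖p‖ < ‖p‖ * ((q.2 : ℝ) * (‖p‖⁻¹ * ‖G f p q.1 t‖)) := h5
        _ = _ := by field_simp
    refine h4.le.trans (mul_le_mul_of_nonneg_right ?_ (norm_nonneg _))
    exact_mod_cast Finset.le_sup (f := Prod.snd) hq

/-- Taylor's formula on a closed ball -/
theorem taylor {U : Set (Fin m → ℂ)} {f : (Fin m → ℂ) → ℂ}
    (hf : AnalyticOnNhd ℂ f U) {x₀ : Fin m → ℂ} {r : ℝ} (hKU : Metric.closedBall x₀ r ⊆ U)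
    (w : List (Fin m)) :
    ∃ L : ℕ, (∀ t ∈ Metric.closedBall x₀ r, ∀ k, ‖D (k :: w) f t‖ ≤ L) ∧
      ∀ t ∈ Metric.closedBall x₀ r, ∀ t' ∈ Metric.closedBall x₀ r,
        ‖D w f t' - D w f t - ∑ k, D (k :: w) f t * (t' k - t k)‖ ≤ L * ‖t' - t‖ ^ 2 := by
  have ha := an hf w
  have hKc : IsCompact (Metric.closedBall x₀ r) := isCompact_closedBall _ _
  have hc1 : ∀ k, ∃ C : ℝ, ∀ t ∈ Metric.closedBall x₀ r, ‖D (k :: w) f t‖ ≤ C := fun k =>
    hKc.exists_bound_of_continuousOn ((an hf (k :: w)).continuousOn.mono hKU)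
  choose C1 hC1 using hc1
  obtain ⟨C2, hC2⟩ := hKc.exists_bound_of_continuousOn
    ((ha.fderiv.fderiv).continuousOn.mono hKU)
  obtain ⟨L, hL⟩ := exists_nat_ge (max C2 (∑ k, |C1 k|))
  refine ⟨L, ?_, ?_⟩
  · intro t ht k
    calc ‖D (k :: w) f t‖ ≤ C1 k := hC1 k t ht
      _ ≤ |C1 k| := le_abs_self _
      _ ≤ ∑ k, |C1 k| := Finset.single_le_sum (f := fun k => |C1 k|) (fun _ _ => abs_nonneg _)
          (Finset.mem_univ k)
      _ ≤ L := (le_max_right _ _).trans hL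
  · intro t ht t' ht'
    have hlip : ∀ x ∈ Metric.closedBall x₀ r, ‖fderiv ℂ (D w f) x - fderiv ℂ (D w f) t‖ ≤
        C2 * ‖x - t‖ := by
      intro x hx
      exact Convex.norm_image_sub_le_of_norm_hasFDerivWithin_le (𝕜 := ℂ)
        (f := fderiv ℂ (D w f)) (f' := fderiv ℂ (fderiv ℂ (D w f)))
        (fun y hy => ((ha.fderiv y (hKU hy)).differentiableAt.hasFDerivAt).hasFDerivWithinAt)
        (fun y hy => hC2 y hy) (convex_closedBall _ _) ht hx
    have h1 := Convex.norm_image_sub_le_of_norm_hasFDerivWithin_le (𝕜 := ℂ)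
      (f := fun x => D w f x - fderiv ℂ (D w f) t x)
      (f' := fun x => fderiv ℂ (D w f) x - fderiv ℂ (D w f) t)
      (s := Metric.closedBall x₀ r ∩ Metric.closedBall t ‖t' - t‖) (x := t) (y := t')
      (C := C2 * ‖t' - t‖) (by
        intro x hx
        exact (((ha x (hKU hx.1)).differentiableAt.hasFDerivAt).sub
          (fderiv ℂ (D w f) t).hasFDerivAt).hasFDerivWithinAt) (by
        rintro x ⟨hx1, hx2⟩
        refine (hlip x hx1).trans ?_
        have hC2' : 0 ≤ C2 := (norm_nonneg _).trans (hC2 t ht)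
        apply mul_le_mul_of_nonneg_left _ hC2'
        rw [← dist_eq_norm]
        exact Metric.mem_closedBall.1 hx2)
      ((convex_closedBall _ _).inter (convex_closedBall _ _))
      ⟨ht, Metric.mem_closedBall_self (norm_nonneg _)⟩
      ⟨ht', by rw [Metric.mem_closedBall, dist_eq_norm]⟩
    have h2 : fderiv ℂ (D w f) t t' - fderiv ℂ (D w f) t t = ∑ k, D (k :: w) f t * (t' k - t k) := by
      rw [← map_sub, fd]
      exact Finset.sum_congr rfl (fun k _ => by rw [Pi.sub_apply, mul_comm])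
    have h3 : D w f t' - D w f t - ∑ k, D (k :: w) f t * (t' k - t k) =
        (D w f t' - fderiv ℂ (D w f) t t') - (D w f t - fderiv ℂ (D w f) t t) := by
      rw [← h2]
      ring
    rw [h3]
    refine h1.trans ?_
    rw [sq, ← mul_assoc]
    gcongr
    exact (le_max_left _ _).trans hL

end Pool.Agent.Helper78.MZ.Fun
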