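import Mathlib
import Pool.Agent.Helper78.MZ.Fun

/-!
# The dimension of the set where linear forms in analytic functions are very small
-/

set_option autoImplicit false

namespace Pool.Agent.Helper78.MZ.Metric

open Filter Topology
open scoped ENNReal
open Pool.Agent.Helper78.MZ.Fun
open Pool.Agent.Helper78.QS.Cover (Cv)

variable {m : ℕ} {S : Type} [Fintype S]

/-- a step in the chain of derivatives -/
theorem chain {f : S → (Fin m → ℂ) → ℂ} {p : S → ℂ} {x : Fin m → ℂ} {H Q : ℕ} (hH : 2 ≤ H)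
    (hQ : 1 ≤ Q) (w : List (Fin m)) : ∀ b : ℕ,
    ‖G f p [] x‖ * (H : ℝ) ^ (Q ^ w.length * b) ≤ 1 → 1 < ‖G f p w x‖ * (H : ℝ) ^ b →
    ∃ (w' : List (Fin m)) (j : Fin m) (e : ℕ), j :: w' <:+ w ∧ b ≤ e ∧
      ‖G f p w' x‖ * (H : ℝ) ^ (Q * e) ≤ 1 ∧ 1 ≤ ‖G f p (j :: w') x‖ * (H : ℝ) ^ e := by
  induction w with
  | nil =>
    intro b h1 h2
    rw [List.length_nil, pow_zero, one_mul] at h1
    exact absurd h2 (not_lt.2 h1)
  | cons j w ih =>
    intro b h1 h2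
    by_cases h3 : ‖G f p w x‖ * (H : ℝ) ^ (Q * b) ≤ 1
    · exact ⟨w, j, b, List.suffix_refl _, le_rfl, h3, h2.le⟩
    · rw [not_le] at h3
      obtain ⟨w', j', e, h4, h5, h6, h7⟩ := ih (Q * b) (by
        have : Q ^ w.length * (Q * b) = Q ^ (j :: w).length * b := by
          rw [List.length_cons, pow_succ]
          ring
        rwa [this]) h3
      exact ⟨w', j', e, h4.trans (List.suffix_cons _ _), (Nat.le_mul_of_pos_left b hQ).trans h5,
        h6, h7⟩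

theorem dim_ball {U : Set (Fin m → ℂ)} (hU : IsOpen U) {f : S → (Fin m → ℂ) → ℂ}
    (hf : ∀ s, AnalyticOnNhd ℂ (f s) U)
    (hli : ∀ t ∈ U, ∀ p : S → ℂ, (∀ᶠ t' in 𝓝 t, ∑ s, p s * f s t' = 0) → p = 0)
    {x₀ : Fin m → ℂ} {r : ℝ} (hKU : Metric.closedBall x₀ r ⊆ U) (A : ℕ) (PP : ℕ → Finset (S → ℂ))
    (hc : ∀ H, 2 ≤ H → (PP H).card ≤ H ^ A)
    (hp : ∀ H, 2 ≤ H → ∀ p ∈ PP H, (∀ s, ‖p s‖ ≤ (H : ℝ) ^ A) ∧ 1 ≤ ‖p‖ * (H : ℝ) ^ A) :
    dimH {t | t ∈ Metric.closedBall x₀ r ∧ ∀ C : ℕ, ∃ H : ℕ, 2 ≤ H ∧ ∃ p ∈ PP H,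
      ‖∑ s, p s * f s t‖ * (H : ℝ) ^ C ≤ 1} ≤ ((2 * (m - 1) : ℕ) : ℝ≥0∞) := by
  classical
  set K := Metric.closedBall x₀ r with hK
  obtain ⟨W, N, hW⟩ := nondeg hU hf hli (isCompact_closedBall x₀ r) hKU
  let W' : Finset (List (Fin m)) := W.biUnion (fun w => w.tails.toFinset)
  have hW' : ∀ w ∈ W, ∀ w', w' <:+ w → w' ∈ W' := by
    intro w hw w' hw'
    exact Finset.mem_biUnion.2 ⟨w, hw, List.mem_toFinset.2 ((List.mem_tails _ _).2 hw')⟩
  choose L hL1 hL2 using fun (w : List (Fin m)) (s : S) => taylor (hf s) hKU w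
  let Λ : ℕ := ∑ w ∈ W', ∑ s, L w s
  have hΛ : ∀ w ∈ W', ∑ s, L w s ≤ Λ := fun w hw =>
    Finset.single_le_sum (f := fun w => ∑ s, L w s) (fun _ _ => Nat.zero_le _) hw
  obtain ⟨R, hR⟩ := exists_nat_ge (‖x₀‖ + r)
  have hKR : ∀ t ∈ K, ‖t‖ ≤ R := by
    intro t ht
    have h1 : ‖t - x₀‖ ≤ r := by
      rw [← dist_eq_norm]
      exact Metric.mem_closedBall.1 ht
    calc ‖t‖ = ‖x₀ + (t - x₀)‖ := by rw [add_sub_cancel]
      _ ≤ ‖x₀‖ + ‖t - x₀‖ := norm_add_le _ _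
      _ ≤ R := by linarith
  obtain ⟨c, hcov⟩ := Cover.cover m R A Λ
  obtain ⟨c₂, hc₂⟩ := pow_unbounded_of_one_lt (W'.card * m : ℝ) one_lt_two
  obtain ⟨a₀, ha₀⟩ := pow_unbounded_of_one_lt (N : ℝ) one_lt_two
  let At : ℕ → ℕ → ℕ → Set (Fin m → ℂ) := fun q H e =>
    ⋃ i : (PP H) × W' × Fin m, {t | t ∈ K ∧ ‖G f i.1 i.2.1 t‖ * (H : ℝ) ^ (q * e) ≤ 1 ∧
      1 ≤ ‖G f i.1 (i.2.2 :: i.2.1) t‖ * (H : ℝ) ^ e}
  refine Abs.dim_le _ (2 * (m - 1)) (2 * m) (A + c₂ + c) At ?_ ?_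
  · intro q H e hH
    have hH1 : 1 ≤ H := by omega
    have hHr : (1 : ℝ) ≤ H := by exact_mod_cast hH1
    have h1 := Cv.union (𝒥 := (PP H) × W' × Fin m)
      (S := fun i => {t | t ∈ K ∧ ‖G f i.1 i.2.1 t‖ * (H : ℝ) ^ (q * e) ≤ 1 ∧
        1 ≤ ‖G f i.1 (i.2.2 :: i.2.1) t‖ * (H : ℝ) ^ e})
      (N := H ^ (c + 2 * (m - 1) * (q * e) + 2 * m * e))
      (P := fun T => ∀ x ∈ T, ∀ y ∈ T, dist x y * (H : ℝ) ^ (q * e) ≤ (H : ℝ) ^ (c + e)) (by
        intro i
        obtain ⟨hp1, -⟩ := hp H hH i.1 i.1.2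
        refine hcov H hH (q * e) e K hKR (fun t => G f i.1 i.2.1 t)
          (fun k t => G f i.1 (k :: i.2.1) t) ?_ ?_ i.2.2
        · intro t ht k
          calc ‖G f i.1 (k :: i.2.1) t‖ ≤ ∑ s, ‖(i.1 : S → ℂ) s * D (k :: i.2.1) (f s) t‖ :=
                norm_sum_le _ _
            _ ≤ ∑ s, (H : ℝ) ^ A * L i.2.1 s := by
                refine Finset.sum_le_sum (fun s _ => ?_)
                rw [norm_mul]
                exact mul_le_mul (hp1 s) (hL1 i.2.1 s t ht k) (norm_nonneg _) (by positivity)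
            _ = (∑ s, L i.2.1 s : ℕ) * (H : ℝ) ^ A := by
                rw [← Finset.mul_sum]
                push_cast
                ring
            _ ≤ Λ * (H : ℝ) ^ A := by
                apply mul_le_mul_of_nonneg_right _ (by positivity)
                exact_mod_cast hΛ _ i.2.1.2
        · intro t ht t' ht'
          have h2 : G f i.1 i.2.1 t' - G f i.1 i.2.1 t -
              ∑ k, G f i.1 (k :: i.2.1) t * (t' k - t k) =
              ∑ s, (i.1 : S → ℂ) s * (D i.2.1 (f s) t' - D i.2.1 (f s) t -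
                ∑ k, D (k :: i.2.1) (f s) t * (t' k - t k)) := by
            have h3 : ∀ k, G f i.1 (k :: i.2.1) t * (t' k - t k) =
                ∑ s, (i.1 : S → ℂ) s * (D (k :: i.2.1) (f s) t * (t' k - t k)) := by
              intro k
              unfold G
              rw [Finset.sum_mul]
              exact Finset.sum_congr rfl (fun s _ => by ring)
            rw [Finset.sum_congr rfl (fun k _ => h3 k), Finset.sum_comm]
            unfold G
            rw [← Finset.sum_sub_distrib, ← Finset.sum_sub_distrib]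
            refine Finset.sum_congr rfl (fun s _ => ?_)
            rw [← Finset.mul_sum]
            ring
          rw [h2]
          calc _ ≤ ∑ s, ‖(i.1 : S → ℂ) s * (D i.2.1 (f s) t' - D i.2.1 (f s) t -
                ∑ k, D (k :: i.2.1) (f s) t * (t' k - t k))‖ := norm_sum_le _ _
            _ ≤ ∑ s, (H : ℝ) ^ A * (L i.2.1 s * ‖t' - t‖ ^ 2) := by
                refine Finset.sum_le_sum (fun s _ => ?_)
                rw [norm_mul]
                exact mul_le_mul (hp1 s) (hL2 i.2.1 s t ht t' ht') (norm_nonneg _) (by positivity)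
            _ = (∑ s, L i.2.1 s : ℕ) * (H : ℝ) ^ A * ‖t' - t‖ ^ 2 := by
                rw [← Finset.mul_sum, ← Finset.sum_mul]
                push_cast
                ring
            _ ≤ Λ * (H : ℝ) ^ A * ‖t' - t‖ ^ 2 := by
                apply mul_le_mul_of_nonneg_right _ (by positivity)
                apply mul_le_mul_of_nonneg_right _ (by positivity)
                exact_mod_cast hΛ _ i.2.1.2)
    refine h1.mono subset_rfl ?_ ?_
    · have h2 : Fintype.card ((PP H) × W' × Fin m) ≤ H ^ (A + c₂) := by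
        rw [Fintype.card_prod, Fintype.card_prod, Fintype.card_coe, Fintype.card_coe,
          Fintype.card_fin, pow_add]
        apply Nat.mul_le_mul (hc H hH)
        have h3 : W'.card * m < 2 ^ c₂ := by exact_mod_cast hc₂
        exact h3.le.trans (Nat.pow_le_pow_left hH _)
      calc _ ≤ H ^ (A + c₂) * H ^ (c + 2 * (m - 1) * (q * e) + 2 * m * e) :=
            Nat.mul_le_mul_right _ h2
        _ = _ := by
          rw [← pow_add]
          congr 1
          ring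
    · intro T hT x hx y hy
      exact (hT x hx y hy).trans (pow_le_pow_right₀ hHr (by omega))
  · rintro q C x ⟨hx, hxC⟩
    set Q := max q 1 with hQ
    set b := C + A + a₀ + 1 with hb
    obtain ⟨H, hH, p, hpH, hsm⟩ := hxC (Q ^ (W.sup List.length) * b)
    obtain ⟨hp1, hp2⟩ := hp H hH p hpH
    obtain ⟨w, hw, hpw⟩ := hW x hx p
    have hH1 : 1 ≤ H := by omega
    have hHr : (1 : ℝ) ≤ H := by exact_mod_cast hH1
    have hHr2 : (2 : ℝ) ≤ H := by exact_mod_cast hH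
    obtain ⟨w', j, e, h1, h2, h3, h4⟩ := chain (f := f) (p := p) (x := x) (Q := Q) hH
      (le_max_right _ _) w b (by
        refine le_trans ?_ hsm
        change ‖G f p [] x‖ * _ ≤ ‖G f p [] x‖ * _
        apply mul_le_mul_of_nonneg_left _ (norm_nonneg _)
        apply pow_le_pow_right₀ hHr
        apply Nat.mul_le_mul_right
        exact Nat.pow_le_pow_right (by omega) (Finset.le_sup (f := List.length) hw)) (by
        have h5 : 1 ≤ ‖G f p w x‖ * (H : ℝ) ^ (A + a₀) := by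
          calc 1 ≤ ‖p‖ * (H : ℝ) ^ A := hp2
            _ ≤ (N * ‖G f p w x‖) * (H : ℝ) ^ A := by gcongr
            _ ≤ ((H : ℝ) ^ a₀ * ‖G f p w x‖) * (H : ℝ) ^ A := by
              gcongr
              exact ha₀.le.trans (pow_le_pow_left₀ (by norm_num) hHr2 _)
            _ = _ := by
              rw [pow_add]
              ring
        have h6 : (H : ℝ) ^ (A + a₀) < (H : ℝ) ^ b :=
          pow_lt_pow_right₀ (by linarith) (by omega)
        have h7 : 0 < ‖G f p w x‖ := by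
          by_contra h8
          have h9 : ‖G f p w x‖ = 0 := le_antisymm (not_lt.1 h8) (norm_nonneg _)
          rw [h9, zero_mul] at h5
          linarith
        exact lt_of_le_of_lt h5 (mul_lt_mul_of_pos_left h6 h7))
    refine ⟨H, hH, e, by omega, Set.mem_iUnion.2 ⟨(⟨p, hpH⟩, ⟨w', hW' w hw w' ?_⟩, j), hx, ?_, h4⟩⟩
    · exact (List.suffix_cons j w').trans h1
    · refine le_trans ?_ h3
      apply mul_le_mul_of_nonneg_left _ (norm_nonneg _)
      apply pow_le_pow_right₀ hHr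
      exact Nat.mul_le_mul_right _ (le_max_left _ _)

/-- **The dimension of the set where linear forms are very small.** -/
theorem dim_metric {U : Set (Fin m → ℂ)} (hU : IsOpen U) {f : S → (Fin m → ℂ) → ℂ}
    (hf : ∀ s, AnalyticOnNhd ℂ (f s) U)
    (hli : ∀ t ∈ U, ∀ p : S → ℂ, (∀ᶠ t' in 𝓝 t, ∑ s, p s * f s t' = 0) → p = 0)
    (A : ℕ) (PP : ℕ → Finset (S → ℂ)) (hc : ∀ H, 2 ≤ H → (PP H).card ≤ H ^ A)
    (hp : ∀ H, 2 ≤ H → ∀ p ∈ PP H, (∀ s, ‖p s‖ ≤ (H : ℝ) ^ A) ∧ 1 ≤ ‖p‖ * (H : ℝ) ^ A) :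
    dimH {t | t ∈ U ∧ ∀ C : ℕ, ∃ H : ℕ, 2 ≤ H ∧ ∃ p ∈ PP H,
      ‖∑ s, p s * f s t‖ * (H : ℝ) ^ C ≤ 1} ≤ ((2 * (m - 1) : ℕ) : ℝ≥0∞) := by
  classical
  have h1 : ∀ t : Fin m → ℂ, ∃ r : ℝ, 0 < r ∧ (t ∈ U → Metric.closedBall t r ⊆ U) := by
    intro t
    by_cases ht : t ∈ U
    · obtain ⟨r, hr, h⟩ := Metric.isOpen_iff.1 hU t ht
      exact ⟨r / 2, by linarith, fun _ => (Metric.closedBall_subset_ball (by linarith)).trans h⟩
    · exact ⟨1, one_pos, fun h => absurd h ht⟩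
  choose r hr0 hrU using h1
  obtain ⟨T, hTU, hTc, hT⟩ := TopologicalSpace.countable_cover_nhdsWithin (s := U)
    (f := fun t => Metric.closedBall t (r t))
    (fun t _ => mem_nhdsWithin_of_mem_nhds (Metric.closedBall_mem_nhds t (hr0 t)))
  have h2 : {t | t ∈ U ∧ ∀ C : ℕ, ∃ H : ℕ, 2 ≤ H ∧ ∃ p ∈ PP H,
      ‖∑ s, p s * f s t‖ * (H : ℝ) ^ C ≤ 1} ⊆ ⋃ x ∈ T, {t | t ∈ Metric.closedBall x (r x) ∧
        ∀ C : ℕ, ∃ H : ℕ, 2 ≤ H ∧ ∃ p ∈ PP H, ‖∑ s, p s * f s t‖ * (H : ℝ) ^ C ≤ 1} := by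
    rintro t ⟨ht, htC⟩
    obtain ⟨x, hx, hx2⟩ := Set.mem_iUnion₂.1 (hT ht)
    exact Set.mem_iUnion₂.2 ⟨x, hx, hx2, htC⟩
  refine (dimH_mono h2).trans ?_
  rw [dimH_bUnion hTc]
  exact iSup₂_le (fun x hx => dim_ball hU hf hli (hrU x (hTU hx)) A PP hc hp)

end Pool.Agent.Helper78.MZ.Metric
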