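import Mathlib
import Pool.Agent.Helper78.MZ.Metric
import Pool.Agent.Helper78.MZ.Atlas

/-!
# Measures of algebraic independence
-/

set_option autoImplicit false

namespace Pool.Agent.Helper78.MZ.Meas

open MvPolynomial Filter Topology Module Set
open scoped ENNReal
open Pool.Agent.Helper78.EC.Closure Pool.Agent.Helper78.EC.Generic
open Pool.Agent.Helper78.MZ.Atlas

/-- the measure of algebraic independence in degree `d` -/
def MeasD {σ : Type} (d : ℕ) (u : σ → ℂ) : Prop :=
  ∃ C : ℕ, ∀ H : ℕ, 2 ≤ H → ∀ P : MvPolynomial σ ℤ, P ≠ 0 → P.totalDegree ≤ d →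
    (∀ s, |P.coeff s| ≤ H) → 1 ≤ ‖aeval u P‖ * (H : ℝ) ^ C

section poly

variable {σ : Type} {d : ℕ}

theorem le_of_mem {R : Type*} [CommRing R] {P : MvPolynomial σ R} (hP : P.totalDegree ≤ d)
    {s : σ →₀ ℕ} (hs : s ∈ P.support) (i : σ) : s i ≤ d := by
  have h1 := le_totalDegree hs
  have h2 : s i ≤ s.sum fun _ e => e := by
    by_cases hi : i ∈ s.support
    · exact Finset.single_le_sum (f := fun i => s i) (fun _ _ => Nat.zero_le _) hi
    · rw [Finsupp.notMem_support_iff.1 hi]
      exact Nat.zero_le _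
  omega

variable [Fintype σ]

/-- the exponents -/
noncomputable def em (r : σ → Fin (d + 1)) : σ →₀ ℕ :=
  Finsupp.equivFunOnFinite.symm (fun i => (r i : ℕ))

theorem em_apply (r : σ → Fin (d + 1)) (i : σ) : em r i = (r i : ℕ) := rfl

theorem em_inj : Function.Injective (em : (σ → Fin (d + 1)) → (σ →₀ ℕ)) := by
  intro r s h
  funext i
  exact Fin.ext (DFunLike.congr_fun h i)

theorem exists_em {s : σ →₀ ℕ} (hs : ∀ i, s i ≤ d) : ∃ r : σ → Fin (d + 1), em r = s :=
  ⟨fun i => ⟨s i, Nat.lt_succ_of_le (hs i)⟩, by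
    ext i
    rfl⟩

variable [DecidableEq σ]

/-- polynomials of bounded degree in coordinates -/
theorem aeval_eq {R : Type*} [CommRing R] [Algebra R ℂ] {P : MvPolynomial σ R}
    (hP : ∀ s ∈ P.support, ∀ i, s i ≤ d) (x : σ → ℂ) :
    aeval x P = ∑ r : σ → Fin (d + 1), algebraMap R ℂ (P.coeff (em r)) * ∏ i, x i ^ (r i : ℕ) := by
  classical
  rw [MvPolynomial.aeval_def, MvPolynomial.eval₂_eq']
  have h1 : P.support ⊆ Finset.univ.image (em : (σ → Fin (d + 1)) → (σ →₀ ℕ)) := by
    intro s hs
    obtain ⟨r, hr⟩ := exists_em (hP s hs)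
    exact Finset.mem_image.2 ⟨r, Finset.mem_univ _, hr⟩
  rw [Finset.sum_subset h1 (by
    intro s _ hs
    rw [notMem_support_iff.1 hs, map_zero, zero_mul]), Finset.sum_image em_inj.injOn]
  rfl

omit [DecidableEq σ] in
theorem exists_coeff {R : Type*} [CommRing R] {P : MvPolynomial σ R}
    (hP : ∀ s ∈ P.support, ∀ i, s i ≤ d) (h0 : P ≠ 0) : ∃ r : σ → Fin (d + 1), P.coeff (em r) ≠ 0 := by
  obtain ⟨s, hs⟩ := support_nonempty.2 h0
  obtain ⟨r, hr⟩ := exists_em (hP s hs)
  exact ⟨r, by
    rw [hr]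
    exact mem_support_iff.1 hs⟩

/-- the polynomial with given coefficients -/
theorem exists_poly {R : Type*} [CommRing R] (c : (σ → Fin (d + 1)) → R) :
    ∃ P : MvPolynomial σ R, (∀ r, P.coeff (em r) = c r) ∧
      (∀ s, (∀ r : σ → Fin (d + 1), em r ≠ s) → P.coeff s = 0) ∧
      (∀ s ∈ P.support, ∀ i, s i ≤ d) ∧ P.totalDegree ≤ Fintype.card σ * d := by
  classical
  have h0 : ∀ s, (∀ r : σ → Fin (d + 1), em r ≠ s) →
      (∑ r, monomial (em r) (c r) : MvPolynomial σ R).coeff s = 0 := by
    intro s hs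
    rw [coeff_sum]
    refine Finset.sum_eq_zero (fun r _ => ?_)
    rw [coeff_monomial, if_neg (hs r)]
  refine ⟨∑ r, monomial (em r) (c r), ?_, h0, ?_, ?_⟩
  · intro r
    rw [coeff_sum, Finset.sum_eq_single r]
    · rw [coeff_monomial, if_pos rfl]
    · intro r' _ hr'
      rw [coeff_monomial, if_neg (fun h => hr' (em_inj h))]
    · intro h
      exact absurd (Finset.mem_univ _) h
  · intro s hs i
    by_contra hcon
    apply mem_support_iff.1 hs
    apply h0
    intro r hr
    rw [← hr, em_apply] at hcon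
    have := (r i).2
    omega
  · refine (totalDegree_finsetSum _ _).trans (Finset.sup_le (fun r _ => ?_))
    refine (totalDegree_monomial_le _ _).trans ?_
    rw [Finsupp.sum_fintype _ _ (fun _ => rfl)]
    calc ∑ i, em r i ≤ ∑ _i : σ, d := Finset.sum_le_sum (fun i _ => by
          rw [em_apply]
          have := (r i).2
          omega)
      _ = _ := by
        rw [Finset.sum_const, Finset.card_univ, smul_eq_mul]

end poly

variable {K : IntermediateField ℚ ℂ} {m k : ℕ}

theorem dense_ecl (m : ℕ) : Dense {x : Fin m → ℂ | ∀ j, x j ∈ ecl K} := by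
  have h1 : Dense ((ecl K : IntermediateField ℚ ℂ) : Set ℂ) := by
    intro a
    rw [Metric.mem_closure_iff]
    intro ε hε
    obtain ⟨u, hu1, hu2⟩ := Pool.Agent.Helper78.EC.Flow.exists_alg_near a hε
    refine ⟨a + u, alg_mem (hu2.tower_top _), ?_⟩
    rw [dist_eq_norm]
    simpa using hu1
  have h2 := dense_pi (Set.univ : Set (Fin m)) (fun _ _ => h1)
  convert h2 using 1
  ext x
  simp

/-- the monomials in the functions of a chart -/
noncomputable def mon (d : ℕ) (c : Ch K m k) (s : Fin k → Fin (d + 1)) (t : Fin m → ℂ) : ℂ :=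
  ∏ i, c.f t i ^ (s i : ℕ)

theorem mon_an (d : ℕ) (c : Ch K m k) (s : Fin k → Fin (d + 1)) :
    AnalyticOnNhd ℂ (mon d c s) (Metric.ball c.c c.r) := by
  intro t ht
  unfold mon
  have h1 := c.an t ht
  rw [analyticAt_pi_iff] at h1
  exact Finset.analyticAt_fun_prod _ (fun i _ => (h1 i).pow _)

/-- **Transfer.** -/
theorem transfer (d : ℕ) (c : Ch K m k) (p : (Fin k → Fin (d + 1)) → ℂ) (hp : p ≠ 0)
    (hrel : ∀ t ∈ Metric.ball c.c c.r, ∑ s, p s * mon d c s t = 0) (t : Fin m → ℂ)
    (ht : t ∈ Metric.ball c.c c.r) : ¬ AlgebraicIndependent (ecl K) (c.f t) := by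
  classical
  set E := ecl K with hE
  let X : Set (Fin m → ℂ) := {x | ∀ j, x j ∈ E}
  have hmon : ∀ t ∈ Metric.ball c.c c.r, t ∈ X → ∀ s, mon d c s t ∈ E := by
    intro t ht htX s
    exact prod_mem (fun i _ => pow_mem (c.rat t ht htX i) _)
  let G : Set ((Fin k → Fin (d + 1)) → E) := {v | ∃ t ∈ Metric.ball c.c c.r, t ∈ X ∧
    ∀ s, (v s : ℂ) = mon d c s t}
  have hspan : Submodule.span E G ≠ ⊤ := by
    intro hcon
    let φ : ((Fin k → Fin (d + 1)) → E) →ₗ[E] ℂ :=
      { toFun := fun v => ∑ s, p s * (v s : ℂ)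
        map_add' := fun v w => by
          rw [← Finset.sum_add_distrib]
          exact Finset.sum_congr rfl (fun s _ => by
            rw [Pi.add_apply]
            push_cast
            ring)
        map_smul' := fun a v => by
          rw [RingHom.id_apply, Algebra.smul_def (R := E) (A := ℂ), Finset.mul_sum]
          refine Finset.sum_congr rfl (fun s _ => ?_)
          rw [Pi.smul_apply, smul_eq_mul]
          push_cast
          change _ = (a : ℂ) * _
          ring }
    have h1 : Submodule.span E G ≤ LinearMap.ker φ := by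
      rw [Submodule.span_le]
      rintro v ⟨t, ht, -, hv⟩
      change ∑ s, p s * (v s : ℂ) = 0
      rw [← hrel t ht]
      exact Finset.sum_congr rfl (fun s _ => by rw [hv])
    rw [hcon] at h1
    apply hp
    funext s
    have h2 : φ (Pi.single s 1) = 0 := h1 trivial
    change ∑ s', p s' * (((Pi.single s 1 : (Fin k → Fin (d + 1)) → E) s' : E) : ℂ) = 0 at h2
    rw [Finset.sum_eq_single s] at h2
    · simpa using h2
    · intro s' _ hs'
      rw [Pi.single_eq_of_ne hs']
      simp
    · intro h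
      exact absurd (Finset.mem_univ _) h
  obtain ⟨g, hg, hg2⟩ := Submodule.exists_le_ker_of_lt_top _ (lt_top_iff_ne_top.2 hspan)
  let q : (Fin k → Fin (d + 1)) → E := fun s => g (Pi.single s 1)
  have hq : q ≠ 0 := by
    intro h0
    apply hg
    apply LinearMap.pi_ext'
    intro j
    ext
    have := congrFun h0 j
    simpa [q] using congrArg Subtype.val this
  have hgq : ∀ v, (g v : E) = ∑ s, q s * v s := by
    intro v
    conv_lhs => rw [← LinearMap.sum_single_apply (fun _ : Fin k → Fin (d + 1) => E) v]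
    rw [map_sum]
    refine Finset.sum_congr rfl (fun s _ => ?_)
    have h3 : (Pi.single s (v s) : (Fin k → Fin (d + 1)) → E) =
        v s • (Pi.single s (1 : E) : (Fin k → Fin (d + 1)) → E) := by
      funext i
      by_cases hij : i = s
      · rw [hij]
        simp
      · simp [hij]
    change g (Pi.single s (v s)) = _
    rw [h3, map_smul, smul_eq_mul, mul_comm]
  -- the relation over `E`
  have hrelX : ∀ t ∈ Metric.ball c.c c.r, t ∈ X → ∑ s, (q s : ℂ) * mon d c s t = 0 := by
    intro t ht htX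
    have h1 : g (fun s => ⟨mon d c s t, hmon t ht htX s⟩) = 0 :=
      hg2 (Submodule.subset_span ⟨t, ht, htX, fun s => rfl⟩)
    rw [hgq] at h1
    have h2 := congrArg (Subtype.val : E → ℂ) h1
    push_cast at h2
    exact h2
  have hrelB : ∑ s, (q s : ℂ) * mon d c s t = 0 := by
    by_contra hcon
    have h1 : ContinuousAt (fun t => ∑ s, (q s : ℂ) * mon d c s t) t := by
      apply AnalyticAt.continuousAt (𝕜 := ℂ)
      exact Finset.analyticAt_fun_sum _ (fun s _ => analyticAt_const.mul (mon_an d c s t ht))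
    have h2 := h1.eventually_ne hcon
    have h3 : t ∈ closure (Metric.ball c.c c.r ∩ X) :=
      (dense_ecl m).open_subset_closure_inter Metric.isOpen_ball ht
    obtain ⟨x, hx1, hx2, hx3⟩ := mem_closure_iff_nhds.1 h3 _ h2
    exact hx1 (hrelX x hx2 hx3)
  intro hai
  obtain ⟨Q, hQ1, -, hQ2, -⟩ := exists_poly q
  have h1 : aeval (c.f t) Q = 0 := by
    rw [aeval_eq hQ2, ← hrelB]
    exact Finset.sum_congr rfl (fun s _ => by
      rw [hQ1]
      rfl)
  apply hq
  have h2 : Q = 0 := by
    rw [AlgebraicIndependent, injective_iff_map_eq_zero] at hai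
    exact hai Q h1
  funext s
  rw [← hQ1, h2, coeff_zero]
  rfl

end Pool.Agent.Helper78.MZ.Meas
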