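import Mathlib
import Pool.Agent.Helper78.MZ.Meas

/-!
# The dimension of the set of points without measures of algebraic independence
-/

set_option autoImplicit false

namespace Pool.Agent.Helper78.MZ.DimMeas

open MvPolynomial Filter Topology Module Set
open scoped ENNReal
open Pool.Agent.Helper78.EC.Closure Pool.Agent.Helper78.EC.Generic
open Pool.Agent.Helper78.MZ.Atlas Pool.Agent.Helper78.MZ.Meas

variable {K : IntermediateField ℚ ℂ} {m k h d : ℕ}

/-- the coefficients of a polynomial in the last variables -/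
noncomputable def vec (y : Fin h → ℂ) (c : (Fin h ⊕ Fin k → Fin (d + 1)) → ℤ)
    (s : Fin k → Fin (d + 1)) : ℂ :=
  ∑ r : Fin h → Fin (d + 1), (c (Sum.elim r s) : ℂ) * ∏ i, y i ^ (r i : ℕ)

theorem aeval_vec (y : Fin h → ℂ) (u : Fin k → ℂ) (P : MvPolynomial (Fin h ⊕ Fin k) ℤ)
    (hP : P.totalDegree ≤ d) : aeval (Sum.elim y u) P =
      ∑ s : Fin k → Fin (d + 1), vec y (fun w => P.coeff (em w)) s * ∏ i, u i ^ (s i : ℕ) := by
  rw [aeval_eq (d := d) (fun s hs i => le_of_mem hP hs i)]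
  rw [← (Equiv.sumArrowEquivProdArrow (Fin h) (Fin k) (Fin (d + 1))).symm.sum_comp,
    Fintype.sum_prod_type_right]
  refine Finset.sum_congr rfl (fun s _ => ?_)
  unfold vec
  rw [Finset.sum_mul]
  refine Finset.sum_congr rfl (fun r _ => ?_)
  rw [Fintype.prod_sum_type, mul_assoc]
  rfl

/-- the set of the vectors of coefficients -/
noncomputable def PP (y : Fin h → ℂ) (k d H : ℕ) : Finset ((Fin k → Fin (d + 1)) → ℂ) :=
  ((Fintype.piFinset fun _ : (Fin h ⊕ Fin k → Fin (d + 1)) =>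
    Finset.Icc (-(H : ℤ)) H).erase 0).image (vec y)

theorem mem_PP {y : Fin h → ℂ} {H : ℕ} {p : (Fin k → Fin (d + 1)) → ℂ} : p ∈ PP y k d H ↔
    ∃ c : (Fin h ⊕ Fin k → Fin (d + 1)) → ℤ, c ≠ 0 ∧ (∀ w, |c w| ≤ H) ∧ vec y c = p := by
  unfold PP
  rw [Finset.mem_image]
  constructor
  · rintro ⟨c, hc, h1⟩
    rw [Finset.mem_erase, Fintype.mem_piFinset] at hc
    exact ⟨c, hc.1, fun w => abs_le.2 (Finset.mem_Icc.1 (hc.2 w)), h1⟩
  · rintro ⟨c, hc, h1, h2⟩
    refine ⟨c, ?_, h2⟩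
    rw [Finset.mem_erase, Fintype.mem_piFinset]
    exact ⟨hc, fun w => Finset.mem_Icc.2 (abs_le.1 (h1 w))⟩

theorem card_PP (y : Fin h → ℂ) {H : ℕ} (hH : 2 ≤ H) :
    (PP y k d H).card ≤ H ^ (3 * Fintype.card (Fin h ⊕ Fin k → Fin (d + 1))) := by
  unfold PP
  refine Finset.card_image_le.trans ((Finset.card_erase_le).trans ?_)
  rw [Fintype.card_piFinset, Finset.prod_const, Int.card_Icc, pow_mul, Finset.card_univ]
  apply Nat.pow_le_pow_left
  have h1 : ((H : ℤ) + 1 - -(H : ℤ)).toNat = 2 * H + 1 := by omega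
  rw [h1]
  calc 2 * H + 1 ≤ H * H * H := by nlinarith
    _ = H ^ 3 := by ring

theorem bound_PP (y : Fin h → ℂ) (hy : MeasD (h * d) y) : ∃ A : ℕ, ∀ H : ℕ, 2 ≤ H →
    ∀ p ∈ PP y k d H, (∀ s, ‖p s‖ ≤ (H : ℝ) ^ A) ∧ 1 ≤ ‖p‖ * (H : ℝ) ^ A := by
  classical
  obtain ⟨C, hC⟩ := hy
  obtain ⟨a, ha⟩ := pow_unbounded_of_one_lt
    (∑ r : Fin h → Fin (d + 1), ‖∏ i, y i ^ (r i : ℕ)‖) one_lt_two
  refine ⟨(a + 1) + C, ?_⟩
  intro H hH p hp
  obtain ⟨c, hc, hcH, rfl⟩ := mem_PP.1 hp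
  have hHr : (1 : ℝ) ≤ H := by exact_mod_cast (by omega : 1 ≤ H)
  have hHr2 : (2 : ℝ) ≤ H := by exact_mod_cast hH
  constructor
  · intro s
    calc ‖vec y c s‖ ≤ ∑ r : Fin h → Fin (d + 1),
          ‖(c (Sum.elim r s) : ℂ) * ∏ i, y i ^ (r i : ℕ)‖ := norm_sum_le _ _
      _ ≤ ∑ r : Fin h → Fin (d + 1), (H : ℝ) * ‖∏ i, y i ^ (r i : ℕ)‖ := by
        refine Finset.sum_le_sum (fun r _ => ?_)
        rw [norm_mul]
        apply mul_le_mul_of_nonneg_right _ (norm_nonneg _)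
        rw [Complex.norm_intCast]
        exact_mod_cast hcH _
      _ = (∑ r : Fin h → Fin (d + 1), ‖∏ i, y i ^ (r i : ℕ)‖) * H := by
        rw [← Finset.mul_sum, mul_comm]
      _ ≤ (H : ℝ) ^ a * H := by
        apply mul_le_mul_of_nonneg_right _ (by linarith)
        exact ha.le.trans (pow_le_pow_left₀ (by norm_num) hHr2 _)
      _ = (H : ℝ) ^ (a + 1) := (pow_succ _ _).symm
      _ ≤ _ := pow_le_pow_right₀ hHr (by omega)
  · obtain ⟨w, hw⟩ := Function.ne_iff.1 hc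
    set s : Fin k → Fin (d + 1) := fun i => w (Sum.inr i) with hs
    obtain ⟨Q, hQ1, hQ2, hQ3, hQ4⟩ := exists_poly (σ := Fin h) (d := d)
      (fun r => c (Sum.elim r s))
    have hwe : Sum.elim (fun i => w (Sum.inl i)) s = w := by
      funext i
      rcases i with i | i <;> rfl
    have hQ0 : Q ≠ 0 := by
      rintro rfl
      have h1 := hQ1 (fun i => w (Sum.inl i))
      rw [coeff_zero, hwe] at h1
      exact hw h1.symm
    have h1 : aeval y Q = vec y c s := by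
      rw [aeval_eq hQ3]
      exact Finset.sum_congr rfl (fun r _ => by
        rw [hQ1]
        rfl)
    rw [Fintype.card_fin] at hQ4
    have h2 := hC H hH Q hQ0 hQ4 (by
      intro s'
      by_cases hs' : ∃ r : Fin h → Fin (d + 1), em r = s'
      · obtain ⟨r, rfl⟩ := hs'
        rw [hQ1]
        exact hcH _
      · push Not at hs'
        rw [hQ2 s' hs', abs_zero]
        positivity)
    rw [h1] at h2
    refine h2.trans (mul_le_mul (norm_le_pi_norm _ _) (pow_le_pow_right₀ hHr (by omega))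
      (by positivity) (norm_nonneg _))

theorem dim_chart {y : Fin h → ℂ} (d : ℕ) (hy : MeasD (h * d) y) (c : Ch K m k) :
    dimH {t | t ∈ Metric.ball c.c c.r ∧ AlgebraicIndependent (ecl K) (c.f t) ∧
      ¬ MeasD d (Sum.elim y (c.f t))} ≤ ((2 * (m - 1) : ℕ) : ℝ≥0∞) := by
  classical
  by_cases hli : ∃ t ∈ Metric.ball c.c c.r, ∃ p : (Fin k → Fin (d + 1)) → ℂ,
      (∀ᶠ t' in 𝓝 t, ∑ s, p s * mon d c s t' = 0) ∧ p ≠ 0
  · obtain ⟨t₀, ht₀, p, hp, hp0⟩ := hli
    have h1 : AnalyticOnNhd ℂ (fun t => ∑ s, p s * mon d c s t) (Metric.ball c.c c.r) :=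
      fun t ht => Finset.analyticAt_fun_sum _ (fun s _ => analyticAt_const.mul (mon_an d c s t ht))
    have h2 := h1.eqOn_zero_of_preconnected_of_eventuallyEq_zero
      (convex_ball _ _).isPreconnected ht₀ hp
    have h3 : {t | t ∈ Metric.ball c.c c.r ∧ AlgebraicIndependent (ecl K) (c.f t) ∧
        ¬ MeasD d (Sum.elim y (c.f t))} = ∅ := by
      rw [Set.eq_empty_iff_forall_notMem]
      rintro t ⟨ht1, ht2, -⟩
      exact transfer d c p hp0 (fun t ht => h2 ht) t ht1 ht2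
    rw [h3, dimH_empty]
    exact zero_le
  · push Not at hli
    obtain ⟨A, hA⟩ := bound_PP (k := k) (d := d) y hy
    have h1 := Metric.dim_metric Metric.isOpen_ball (f := mon d c) (fun s => mon_an d c s)
      (fun t ht p hp => hli t ht p hp)
      (A + 3 * Fintype.card (Fin h ⊕ Fin k → Fin (d + 1))) (fun H => PP y k d H)
      (fun H hH => (card_PP y hH).trans (Nat.pow_le_pow_right (by omega) (by omega)))
      (fun H hH p hp => by
        obtain ⟨h2, h3⟩ := hA H hH p hp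
        have hHr : (1 : ℝ) ≤ H := by exact_mod_cast (by omega : 1 ≤ H)
        have h4 : (H : ℝ) ^ A ≤ (H : ℝ) ^
            (A + 3 * Fintype.card (Fin h ⊕ Fin k → Fin (d + 1))) :=
          pow_le_pow_right₀ hHr (by omega)
        exact ⟨fun s => (h2 s).trans h4, h3.trans (mul_le_mul_of_nonneg_left h4 (norm_nonneg _))⟩)
    refine (dimH_mono ?_).trans h1
    rintro t ⟨ht1, -, ht3⟩
    refine ⟨ht1, fun C => ?_⟩
    unfold MeasD at ht3
    push Not at ht3
    obtain ⟨H, hH, P, hP0, hPd, hPH, hlt⟩ := ht3 C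
    refine ⟨H, hH, vec y (fun w => P.coeff (em w)), mem_PP.2 ⟨_, ?_, fun w => hPH _, rfl⟩, ?_⟩
    · obtain ⟨w, hw⟩ := exists_coeff (d := d) (fun s hs i => le_of_mem hPd hs i) hP0
      exact fun h0 => hw (congrFun h0 w)
    · rw [aeval_vec y (c.f t) P hPd] at hlt
      exact hlt.le

end Pool.Agent.Helper78.MZ.DimMeas
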