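import Mathlib
import Pool.Agent.Helper78.MZ.DimMeas
import Pool.Agent.Helper78.EC.Use

/-!
# Measures of algebraic independence: changes of variables and the final theorem
-/

set_option autoImplicit false

namespace Pool.Agent.Helper78.MZ.Final

open MvPolynomial Filter Topology Module Set
open scoped ENNReal
open Pool.Agent.Helper78.EC.Closure Pool.Agent.Helper78.EC.Generic
open Pool.Agent.Helper78.MZ.Atlas Pool.Agent.Helper78.MZ.Meas

variable {K : IntermediateField ℚ ℂ}

/-- **The dimension of the set of the points with exceptional tuples.** -/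
theorem dim_final (hK : Countable K) (m : ℕ) (Y : Set (Σ h : ℕ, (Fin h → ℂ))) (hY : Y.Countable) :
    dimH {t : Fin m → ℂ | ¬ (Gen K t ∧ ∀ p ∈ Y, ∀ (k d : ℕ) (u : Fin k → ℂ),
      MeasD (p.1 * d) p.2 → (∀ i, u i ∈ ecl (adj K t)) → AlgebraicIndependent (ecl K) u →
        MeasD d (Sum.elim p.2 u))} ≤ ((2 * (m - 1) : ℕ) : ℝ≥0∞) := by
  classical
  choose ι hι g hg using fun k => atlas (K := K) hK m k
  have hYc : Countable Y := hY.to_subtype
  let B : (Y × ((k : ℕ) × ι k) × ℕ) → Set (Fin m → ℂ) := fun p =>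
    if MeasD (p.1.1.1 * p.2.2) p.1.1.2 then
      {t | t ∈ Metric.ball (g p.2.1.1 p.2.1.2).c (g p.2.1.1 p.2.1.2).r ∧
        AlgebraicIndependent (ecl K) ((g p.2.1.1 p.2.1.2).f t) ∧
        ¬ MeasD p.2.2 (Sum.elim p.1.1.2 ((g p.2.1.1 p.2.1.2).f t))}
    else ∅
  have hB : ∀ p, dimH (B p) ≤ ((2 * (m - 1) : ℕ) : ℝ≥0∞) := by
    intro p
    simp only [B]
    split_ifs with h
    · exact DimMeas.dim_chart p.2.2 h _
    · rw [dimH_empty]
      exact zero_le
  have hsub : {t : Fin m → ℂ | ¬ (Gen K t ∧ ∀ p ∈ Y, ∀ (k d : ℕ) (u : Fin k → ℂ),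
      MeasD (p.1 * d) p.2 → (∀ i, u i ∈ ecl (adj K t)) → AlgebraicIndependent (ecl K) u →
        MeasD d (Sum.elim p.2 u))} ⊆ {t : Fin m → ℂ | ¬ Gen K t} ∪ ⋃ p, B p := by
    intro t ht
    by_cases hgen : Gen K t
    · right
      have ht' : ¬ (Gen K t ∧ ∀ p ∈ Y, ∀ (k d : ℕ) (u : Fin k → ℂ),
        MeasD (p.1 * d) p.2 → (∀ i, u i ∈ ecl (adj K t)) → AlgebraicIndependent (ecl K) u →
          MeasD d (Sum.elim p.2 u)) := ht
      push Not at ht'
      obtain ⟨p, hp, k, d, u, h1, h2, h3, h4⟩ := ht' hgen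
      obtain ⟨i, h5, h6⟩ := hg k t hgen u h2
      refine Set.mem_iUnion.2 ⟨⟨⟨p, hp⟩, ⟨k, i⟩, d⟩, ?_⟩
      simp only [B, if_pos h1]
      refine ⟨h5, ?_, ?_⟩
      · rw [h6]
        exact h3
      · rw [h6]
        exact h4
    · exact Or.inl hgen
  have hcount : Countable (Y × ((k : ℕ) × ι k) × ℕ) := inferInstance
  refine (dimH_mono hsub).trans ?_
  rw [dimH_union, dimH_iUnion]
  exact max_le (dimH_bad hK m) (iSup_le hB)

/-- subfamilies -/
theorem sub {σ τ : Type} {d : ℕ} {u : σ → ℂ} (hu : MeasD d u) {e : τ → σ}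
    (he : Function.Injective e) : MeasD d (u ∘ e) := by
  obtain ⟨C, hC⟩ := hu
  refine ⟨C, fun H hH P hP hd hPH => ?_⟩
  have h1 := hC H hH (rename e P) (by
    intro h0
    apply hP
    apply rename_injective e he
    rw [h0, map_zero]) ((totalDegree_rename_le e P).trans hd) (by
    intro s
    by_cases hs : ∃ s' : τ →₀ ℕ, s'.mapDomain e = s
    · obtain ⟨s', rfl⟩ := hs
      rw [coeff_rename_mapDomain e he]
      exact hPH s'
    · rw [coeff_rename_eq_zero e P s (fun s' hs' => absurd ⟨s', hs'⟩ hs), abs_zero]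
      positivity)
  rwa [aeval_rename] at h1

theorem clear1 {σ : Type} (g : MvPolynomial σ ℚ) : ∃ N : ℤ, N ≠ 0 ∧ ∃ G : MvPolynomial σ ℤ,
    map (Int.castRingHom ℚ) G = C (N : ℚ) * g := by
  induction g using MvPolynomial.induction_on with
  | C a =>
    refine ⟨a.den, by exact_mod_cast a.den_ne_zero, C a.num, ?_⟩
    rw [map_C, ← map_mul]
    congr 1
    push_cast
    exact (Rat.den_mul_eq_num a).symm
  | add p q hp hq =>
    obtain ⟨N, hN, G, hG⟩ := hp
    obtain ⟨M, hM, F, hF⟩ := hq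
    refine ⟨N * M, mul_ne_zero hN hM, C M * G + C N * F, ?_⟩
    rw [map_add, map_mul, map_mul, hG, hF, map_C, map_C]
    push_cast
    rw [C_mul]
    change C (M : ℚ) * _ + C (N : ℚ) * _ = _
    ring
  | mul_X p j hp =>
    obtain ⟨N, hN, G, hG⟩ := hp
    refine ⟨N, hN, G * X j, ?_⟩
    rw [map_mul, hG, map_X, mul_assoc]

/-- common denominators -/
theorem clear {σ ι : Type} [Fintype ι] (g : ι → MvPolynomial σ ℚ) : ∃ N : ℤ, N ≠ 0 ∧
    ∃ G : ι → MvPolynomial σ ℤ, ∀ i, map (Int.castRingHom ℚ) (G i) = C (N : ℚ) * g i := by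
  classical
  choose N hN G hG using fun i => clear1 (g i)
  refine ⟨∏ i, N i, Finset.prod_ne_zero_iff.2 (fun i _ => hN i),
    fun i => C (∏ j ∈ Finset.univ.erase i, N j) * G i, fun i => ?_⟩
  rw [map_mul, hG, map_C, ← mul_assoc, ← Finset.mul_prod_erase _ _ (Finset.mem_univ i), ← map_mul]
  congr 2
  rw [map_prod]
  push_cast
  exact mul_comm _ _

/-- polynomials of bounded degree, in any algebra -/
theorem aeval_eq' {σ A R : Type*} [Fintype σ] [DecidableEq σ] [CommRing R] [CommRing A]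
    [Algebra R A] {d : ℕ} {P : MvPolynomial σ R}
    (hP : ∀ s ∈ P.support, ∀ i, s i ≤ d) (x : σ → A) :
    aeval x P = ∑ r : σ → Fin (d + 1), algebraMap R A
      (P.coeff (Finsupp.equivFunOnFinite.symm (fun i => (r i : ℕ)))) * ∏ i, x i ^ (r i : ℕ) := by
  classical
  rw [MvPolynomial.aeval_def, MvPolynomial.eval₂_eq']
  have hinj : Function.Injective (fun r : σ → Fin (d + 1) =>
      (Finsupp.equivFunOnFinite.symm (fun i => (r i : ℕ)) : σ →₀ ℕ)) := by
    intro r s h
    funext i
    exact Fin.ext (DFunLike.congr_fun h i)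
  have h1 : P.support ⊆ Finset.univ.image (fun r : σ → Fin (d + 1) =>
      (Finsupp.equivFunOnFinite.symm (fun i => (r i : ℕ)) : σ →₀ ℕ)) := by
    intro s hs
    refine Finset.mem_image.2 ⟨fun i => ⟨s i, Nat.lt_succ_of_le (hP s hs i)⟩, Finset.mem_univ _, ?_⟩
    ext i
    rfl
  rw [Finset.sum_subset h1 (by
    intro s _ hs
    rw [notMem_support_iff.1 hs, map_zero, zero_mul]), Finset.sum_image hinj.injOn]
  rfl

/-- **Change of variables.** -/
theorem comp {σ τ : Type} [Fintype τ] (x : σ → ℂ) (F : τ → MvPolynomial σ ℚ)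
    (ψ : MvPolynomial σ ℚ →ₐ[ℚ] MvPolynomial τ ℚ) (hψ : ∀ j, ψ (F j) = X j)
    (hx : ∀ d, MeasD d x) (d : ℕ) : MeasD d (fun j => aeval x (F j)) := by
  classical
  obtain ⟨N, hN, G, hG⟩ := clear (fun r : τ → Fin (d + 1) => ∏ j, F j ^ (r j : ℕ))
  obtain ⟨C₀, hC₀⟩ := hx (∑ r, (G r).totalDegree)
  obtain ⟨a, ha⟩ := pow_unbounded_of_one_lt
    (∑ r, ∑ s ∈ (G r).support, |(G r).coeff s| : ℤ) (one_lt_two (α := ℤ))
  obtain ⟨b, hb⟩ := pow_unbounded_of_one_lt (‖(N : ℂ)‖) one_lt_two
  refine ⟨b + (1 + a) * C₀, ?_⟩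
  intro H hH P hP hPd hPH
  have hHr : (1 : ℝ) ≤ H := by exact_mod_cast (by omega : 1 ≤ H)
  have hHr2 : (2 : ℝ) ≤ H := by exact_mod_cast hH
  set Q : MvPolynomial σ ℤ := ∑ r : τ → Fin (d + 1), C (P.coeff (em r)) * G r with hQ
  have hPs : ∀ s ∈ P.support, ∀ i, s i ≤ d := fun s hs i => le_of_mem hPd hs i
  have hmap : map (Int.castRingHom ℚ) Q = C (N : ℚ) * aeval F P := by
    rw [hQ, map_sum, aeval_eq' hPs, Finset.mul_sum]
    refine Finset.sum_congr rfl (fun r _ => ?_)
    rw [map_mul, hG, map_C]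
    change C ((P.coeff (em r) : ℤ) : ℚ) * _ = C (N : ℚ) * (((P.coeff (em r) : ℤ) :
      MvPolynomial σ ℚ) * _)
    have : (((P.coeff (em r) : ℤ)) : MvPolynomial σ ℚ) = C ((P.coeff (em r) : ℤ) : ℚ) := by
      rw [map_intCast]
    rw [this]
    ring
  have hF0 : aeval F P ≠ 0 := by
    intro h0
    apply hP
    have h1 : ψ (aeval F P) = map (Int.castRingHom ℚ) P := by
      have h2 : ((ψ.restrictScalars ℤ).comp (aeval F : MvPolynomial τ ℤ →ₐ[ℤ] _)) =
          (aeval (X : τ → MvPolynomial τ ℚ)) := by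
        apply MvPolynomial.algHom_ext
        intro j
        rw [AlgHom.comp_apply, aeval_X, aeval_X]
        exact hψ j
      have h3 := DFunLike.congr_fun h2 P
      rw [AlgHom.comp_apply] at h3
      change ψ (aeval F P) = _ at h3
      rw [h3]
      have h4 : (aeval (X : τ → MvPolynomial τ ℚ) : MvPolynomial τ ℤ →ₐ[ℤ] _).toRingHom =
          MvPolynomial.map (Int.castRingHom ℚ) := by
        apply MvPolynomial.ringHom_ext
        · intro c
          rw [map_C]
          change aeval (X : τ → MvPolynomial τ ℚ) (C c) = _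
          rw [aeval_C]
          simp
        · intro j
          rw [map_X]
          change aeval (X : τ → MvPolynomial τ ℚ) (X j) = _
          rw [aeval_X]
      exact DFunLike.congr_fun h4 P
    rw [h0, map_zero] at h1
    exact (map_injective (Int.castRingHom ℚ) Int.cast_injective) (by rw [← h1, map_zero])
  have hQ0 : Q ≠ 0 := by
    intro h0
    rw [h0, map_zero] at hmap
    rcases mul_eq_zero.1 hmap.symm with h1 | h1
    · rw [MvPolynomial.C_eq_zero] at h1
      exact hN (by exact_mod_cast h1)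
    · exact hF0 h1
  have hQd : Q.totalDegree ≤ ∑ r, (G r).totalDegree := by
    refine (totalDegree_finsetSum _ _).trans (Finset.sup_le (fun r _ => ?_))
    refine (totalDegree_mul _ _).trans ?_
    rw [totalDegree_C, zero_add]
    exact Finset.single_le_sum (f := fun r => (G r).totalDegree) (fun _ _ => Nat.zero_le _)
      (Finset.mem_univ r)
  have hQH : ∀ s, |Q.coeff s| ≤ ((H ^ (1 + a) : ℕ) : ℤ) := by
    intro s
    have hH0 : (0 : ℤ) ≤ H := by positivity
    calc |Q.coeff s| = |∑ r : τ → Fin (d + 1), P.coeff (em r) * (G r).coeff s| := by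
          rw [hQ, coeff_sum]
          simp only [coeff_C_mul]
      _ ≤ ∑ r : τ → Fin (d + 1), |P.coeff (em r) * (G r).coeff s| := Finset.abs_sum_le_sum_abs _ _
      _ ≤ ∑ r : τ → Fin (d + 1), (H : ℤ) * ∑ s ∈ (G r).support, |(G r).coeff s| := by
          refine Finset.sum_le_sum (fun r _ => ?_)
          rw [abs_mul]
          refine mul_le_mul (hPH _) ?_ (abs_nonneg _) hH0
          by_cases hs : s ∈ (G r).support
          · exact Finset.single_le_sum (f := fun s => |(G r).coeff s|) (fun _ _ => abs_nonneg _) hs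
          · rw [notMem_support_iff.1 hs, abs_zero]
            exact Finset.sum_nonneg (fun _ _ => abs_nonneg _)
      _ = (H : ℤ) * ∑ r, ∑ s ∈ (G r).support, |(G r).coeff s| := (Finset.mul_sum _ _ _).symm
      _ ≤ (H : ℤ) * (H : ℤ) ^ a := by
          apply mul_le_mul_of_nonneg_left _ hH0
          exact ha.le.trans (pow_le_pow_left₀ (by norm_num) (by exact_mod_cast hH) _)
      _ = _ := by
          push_cast
          ring
  have h1 := hC₀ (H ^ (1 + a)) (by
    calc 2 ≤ H := hH
      _ = H ^ 1 := (pow_one _).symm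
      _ ≤ H ^ (1 + a) := Nat.pow_le_pow_right (by omega) (by omega)) Q hQ0 hQd hQH
  have h2 : aeval x Q = (N : ℂ) * aeval (fun j => aeval x (F j)) P := by
    have h3 : aeval x Q = aeval x (map (Int.castRingHom ℚ) Q) := by
      rw [aeval_def, aeval_def, eval₂_map]
      congr 1
    have h5 : algebraMap ℚ ℂ (N : ℚ) = (N : ℂ) := by simp
    rw [h3, hmap, map_mul, aeval_C, h5]
    congr 1
    · have h4 : (((aeval x : MvPolynomial σ ℚ →ₐ[ℚ] ℂ).restrictScalars ℤ).comp
          (aeval F : MvPolynomial τ ℤ →ₐ[ℤ] _)) = (aeval (fun j => aeval x (F j))) := by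
        apply MvPolynomial.algHom_ext
        intro j
        rw [AlgHom.comp_apply, aeval_X, aeval_X]
        rfl
      exact DFunLike.congr_fun h4 P
  rw [h2, norm_mul] at h1
  have h3 : ‖(N : ℂ)‖ ≤ (H : ℝ) ^ b := hb.le.trans (pow_le_pow_left₀ (by norm_num) hHr2 _)
  calc (1 : ℝ) ≤ ‖(N : ℂ)‖ * ‖aeval (fun j => aeval x (F j)) P‖ * ((H ^ (1 + a) : ℕ) : ℝ) ^ C₀ := h1
    _ ≤ (H : ℝ) ^ b * ‖aeval (fun j => aeval x (F j)) P‖ * ((H ^ (1 + a) : ℕ) : ℝ) ^ C₀ := by
        gcongr
    _ = _ := by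
        push_cast
        rw [← pow_mul, pow_add]
        ring

/-- change of the basis of a space of numbers over `ℚ` -/
theorem change {ρ σ τ : Type} [Fintype ρ] [Fintype σ] [Fintype τ] (t : ρ → ℂ) (x : σ → ℂ)
    (l : τ → ℂ) (hl : LinearIndependent ℚ l) (h1 : ∀ i, l i ∈ Submodule.span ℚ (range x))
    (h2 : ∀ s, x s ∈ Submodule.span ℚ (range l)) (hx : ∀ d, MeasD d (Sum.elim t x)) (d : ℕ) :
    MeasD d (Sum.elim t l) := by
  classical
  choose a ha using fun i => (Submodule.mem_span_range_iff_exists_fun ℚ).1 (h1 i)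
  choose b hb using fun s => (Submodule.mem_span_range_iff_exists_fun ℚ).1 (h2 s)
  have hab : ∀ i k, ∑ s, a i s * b s k = if i = k then 1 else 0 := by
    intro i
    have h3 : ∑ k, (∑ s, a i s * b s k - if i = k then 1 else 0) • l k = 0 := by
      simp only [sub_smul, Finset.sum_sub_distrib]
      have h4 : ∑ k, (∑ s, a i s * b s k) • l k = l i := by
        calc ∑ k, (∑ s, a i s * b s k) • l k = ∑ k, ∑ s, a i s • (b s k • l k) := by
              refine Finset.sum_congr rfl (fun k _ => ?_)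
              rw [Finset.sum_smul]
              exact Finset.sum_congr rfl (fun s _ => by rw [mul_smul])
          _ = ∑ s, a i s • ∑ k, b s k • l k := by
              rw [Finset.sum_comm]
              exact Finset.sum_congr rfl (fun s _ => by rw [Finset.smul_sum])
          _ = l i := by
              rw [← ha i]
              exact Finset.sum_congr rfl (fun s _ => by rw [hb])
      rw [h4]
      simp [ite_smul]
    intro k
    have := Fintype.linearIndependent_iff.1 hl _ h3 k
    linarith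
  have h3 := comp (Sum.elim t x)
    (Sum.elim (fun j => X (Sum.inl j)) (fun i => ∑ s, C (a i s) * X (Sum.inr s)) :
      ρ ⊕ τ → MvPolynomial (ρ ⊕ σ) ℚ)
    (aeval (Sum.elim (fun j => X (Sum.inl j)) (fun s => ∑ i, C (b s i) * X (Sum.inr i)))) (by
      rintro (j | i)
      · rw [Sum.elim_inl, aeval_X, Sum.elim_inl]
      · rw [Sum.elim_inr, map_sum]
        simp only [map_mul, aeval_X, Sum.elim_inr, MvPolynomial.aeval_C,
          MvPolynomial.algebraMap_eq, Finset.mul_sum]
        rw [Finset.sum_comm]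
        calc ∑ k, ∑ s, C (a i s) * (C (b s k) * X (Sum.inr k)) =
              ∑ k, C (∑ s, a i s * b s k) * (X (Sum.inr k) : MvPolynomial (ρ ⊕ τ) ℚ) := by
              refine Finset.sum_congr rfl (fun k _ => ?_)
              rw [map_sum, Finset.sum_mul]
              exact Finset.sum_congr rfl (fun s _ => by rw [map_mul, mul_assoc])
          _ = X (Sum.inr i) := by
              simp only [hab]
              rw [Finset.sum_eq_single i]
              · simp
              · intro k _ hk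
                simp [Ne.symm hk]
              · intro h
                exact absurd (Finset.mem_univ _) h) hx d
  convert h3 using 1
  funext s
  rcases s with j | i
  · simp
  · simp only [Sum.elim_inr, map_sum, map_mul, aeval_X, MvPolynomial.aeval_C]
    rw [← ha i]
    exact Finset.sum_congr rfl (fun s _ => by rw [Algebra.smul_def])

end Pool.Agent.Helper78.MZ.Final
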